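import Mathlib

set_option autoImplicit false

/-!
# The gap principle in an arbitrary rational base

A vanishing sum `∑ g_i b ^ e_i` with integral coefficients `g_i` and a rational base
`b ≠ 0, 1, -1` splits along the gaps of the exponents.
-/

namespace Pool.Agent.N695.CY

open Finset

/-- Splitting along gaps, from the splitting at one gap. -/
theorem closed_of_cut {ι M : Type*} [DecidableEq ι] [AddCommGroup M] (f : ι → M) (e : ι → ℤ)
    (L : ℤ) (hL : 1 ≤ L) (A : Finset ι)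
    (hcut : ∀ (S : Finset ι) (E : ℤ), S ⊆ A → ∑ i ∈ S, f i = 0 →
      (∀ i ∈ S, e i ≤ E ∨ E + L ≤ e i) → ∑ i ∈ S with e i ≤ E, f i = 0) :
    ∀ (n : ℕ) (S T : Finset ι), S.card ≤ n → S ⊆ A → T ⊆ S → ∑ i ∈ S, f i = 0 →
      (∀ i ∈ T, ∀ j ∈ S, j ∉ T → ¬ |e i - e j| < L) → ∑ i ∈ T, f i = 0 := by
  intro n
  induction n with
  | zero =>
    intro S T hS hSA hTS _ _
    have : S = ∅ := card_eq_zero.mp (by omega)
    subst this
    rw [subset_empty.mp hTS, sum_empty]
  | succ n ih =>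
    intro S T hcard hSA hTS hsum hcl
    by_cases hT : T = ∅
    · rw [hT, sum_empty]
    by_cases hTeq : T = S
    · rw [hTeq, hsum]
    obtain ⟨i0, hi0⟩ := nonempty_iff_ne_empty.mpr hT
    obtain ⟨j0, hj0S, hj0T⟩ : ∃ j ∈ S, j ∉ T := by
      by_contra h
      push Not at h
      exact hTeq (Subset.antisymm hTS h)
    -- the pairs separated by `T`
    set Q : Finset (ι × ι) := (S ×ˢ S).filter fun x =>
      ((x.1 ∈ T ∧ x.2 ∉ T) ∨ (x.1 ∉ T ∧ x.2 ∈ T)) ∧ e x.1 ≤ e x.2 with hQ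
    have hQne : Q.Nonempty := by
      rcases le_total (e i0) (e j0) with h | h
      · exact ⟨(i0, j0), by simp [hQ, hTS hi0, hj0S, hi0, hj0T, h]⟩
      · exact ⟨(j0, i0), by simp [hQ, hTS hi0, hj0S, hi0, hj0T, h]⟩
    obtain ⟨⟨i, j⟩, hij, hmin⟩ := exists_min_image Q (fun x => e x.2 - e x.1) hQne
    have hmem : ∀ a c : ι, (a, c) ∈ Q ↔ (a ∈ S ∧ c ∈ S) ∧
        ((a ∈ T ∧ c ∉ T) ∨ (a ∉ T ∧ c ∈ T)) ∧ e a ≤ e c := by
      intro a c
      simp [hQ]
    obtain ⟨⟨hiS, hjS⟩, hsep, hle⟩ := (hmem i j).mp hij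
    have hgap : e i + L ≤ e j := by
      rcases hsep with ⟨h1, h2⟩ | ⟨h1, h2⟩
      · have := hcl i h1 j hjS h2
        rw [abs_sub_comm, abs_of_nonneg (by linarith)] at this
        linarith
      · have := hcl j h2 i hiS h1
        rw [abs_of_nonneg (by linarith)] at this
        linarith
    have hbetween : ∀ k ∈ S, e k ≤ e i ∨ e i + L ≤ e k := by
      intro k hk
      by_contra hcon
      push Not at hcon
      obtain ⟨h1, h2⟩ := hcon
      have h3 : e k < e j := by linarith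
      by_cases hx : (i ∈ T ∧ k ∉ T) ∨ (i ∉ T ∧ k ∈ T)
      · have := hmin (i, k) ((hmem i k).mpr ⟨⟨hiS, hk⟩, hx, h1.le⟩)
        simp only at this
        linarith
      · have hy : (k ∈ T ∧ j ∉ T) ∨ (k ∉ T ∧ j ∈ T) := by tauto
        have := hmin (k, j) ((hmem k j).mpr ⟨⟨hk, hjS⟩, hy, h3.le⟩)
        simp only at this
        linarith
    have hlow := hcut S (e i) hSA hsum hbetween
    have hhigh : ∑ k ∈ S with ¬ e k ≤ e i, f k = 0 := by
      have := sum_filter_add_sum_filter_not S (fun k => e k ≤ e i) f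
      rw [hlow, hsum, zero_add] at this
      exact this
    have hsubl : S.filter (fun k => e k ≤ e i) ⊆ S := filter_subset _ _
    have hsubh : S.filter (fun k => ¬ e k ≤ e i) ⊆ S := filter_subset _ _
    have hcl1 : (S.filter fun k => e k ≤ e i).card ≤ n := by
      have : (S.filter fun k => e k ≤ e i).card < S.card := by
        apply card_lt_card
        refine ⟨hsubl, fun h => ?_⟩
        have := (mem_filter.mp (h hjS)).2
        linarith
      omega
    have hcl2 : (S.filter fun k => ¬ e k ≤ e i).card ≤ n := by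
      have : (S.filter fun k => ¬ e k ≤ e i).card < S.card := by
        apply card_lt_card
        refine ⟨hsubh, fun h => ?_⟩
        exact (mem_filter.mp (h hiS)).2 le_rfl
      omega
    have e1 := ih _ (T.filter fun k => e k ≤ e i) hcl1 (hsubl.trans hSA)
      (filter_subset_filter _ hTS) hlow (by
        intro a ha c hc hcT
        rw [mem_filter] at ha hc hcT
        exact hcl a ha.1 c hc.1 fun h => hcT ⟨h, hc.2⟩)
    have e2 := ih _ (T.filter fun k => ¬ e k ≤ e i) hcl2 (hsubh.trans hSA)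
      (filter_subset_filter _ hTS) hhigh (by
        intro a ha c hc hcT
        rw [mem_filter] at ha hc hcT
        exact hcl a ha.1 c hc.1 fun h => hcT ⟨h, hc.2⟩)
    rw [← sum_filter_add_sum_filter_not T (fun k => e k ≤ e i) f, e1, e2, zero_add]

/-- a rational number with two coprime denominators is an integer -/
theorem int_of_coprime (x : ℚ) (a c : ℤ) (h : IsCoprime a c) (ha : ∃ k : ℤ, a * x = k)
    (hc : ∃ k : ℤ, c * x = k) : ∃ k : ℤ, x = k := by
  obtain ⟨u, v, huv⟩ := h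
  obtain ⟨k, hk⟩ := ha
  obtain ⟨l, hl⟩ := hc
  refine ⟨u * k + v * l, ?_⟩
  have : (u : ℚ) * a + v * c = 1 := by exact_mod_cast huv
  push_cast
  rw [← hk, ← hl]
  linear_combination (-x) * this

theorem exists_num_pow {ι : Type*} (b : ℚ) (hb0 : b ≠ 0) (g : ι → ℤ) (e : ι → ℤ) (S : Finset ι)
    (he : ∀ i ∈ S, e i ≤ 0) : ∃ K : ℕ, ∃ k : ℤ, (b.num : ℚ) ^ K * ∑ i ∈ S, (g i : ℚ) * b ^ e i = k := by
  classical
  induction S using Finset.induction_on with
  | empty => exact ⟨0, 0, by simp⟩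
  | insert a S ha ih =>
    obtain ⟨K, k, hk⟩ := ih fun i hi => he i (mem_insert_of_mem hi)
    have hea := he a (mem_insert_self _ _)
    obtain ⟨l, hl⟩ : ∃ l : ℕ, e a = -l := ⟨(-e a).toNat, by rw [Int.toNat_of_nonneg (by linarith)]; ring⟩
    refine ⟨K + l, b.num ^ l * k + b.num ^ K * (g a * (b.den : ℤ) ^ l), ?_⟩
    rw [sum_insert ha]
    push_cast
    rw [← hk]
    have hnum : (b.num : ℚ) ≠ 0 := by exact_mod_cast (Rat.num_ne_zero.mpr hb0)
    have h1 : b ^ e a = (b.den : ℚ) ^ l / (b.num : ℚ) ^ l := by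
      rw [hl, zpow_neg, zpow_natCast, ← inv_pow, ← div_pow]
      congr 1
      conv_lhs => rw [← Rat.num_div_den b]
      rw [inv_div]
    rw [h1]
    field_simp
    ring

theorem exists_den_pow {ι : Type*} (b : ℚ) (g : ι → ℤ) (e : ι → ℤ) (L : ℕ) (S : Finset ι)
    (he : ∀ i ∈ S, (L : ℤ) ≤ e i) :
    ∃ K : ℕ, ∃ k : ℤ, (b.den : ℚ) ^ K * ∑ i ∈ S, (g i : ℚ) * b ^ e i = b.num ^ L * k := by
  classical
  induction S using Finset.induction_on with
  | empty => exact ⟨0, 0, by simp⟩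
  | insert a S ha ih =>
    obtain ⟨K, k, hk⟩ := ih fun i hi => he i (mem_insert_of_mem hi)
    have hea := he a (mem_insert_self _ _)
    obtain ⟨l, hl⟩ : ∃ l : ℕ, e a = L + l := ⟨(e a - L).toNat, by
      rw [Int.toNat_of_nonneg (by linarith)]; ring⟩
    refine ⟨K + (L + l), (b.den : ℤ) ^ (L + l) * k + (b.den : ℤ) ^ K * (g a * b.num ^ l), ?_⟩
    rw [sum_insert ha]
    push_cast
    have hden : (b.den : ℚ) ≠ 0 := by exact_mod_cast b.den_ne_zero
    have h1 : b ^ e a = (b.num : ℚ) ^ (L + l) / (b.den : ℚ) ^ (L + l) := by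
      rw [hl, ← div_pow, Rat.num_div_den]
      exact_mod_cast rfl
    rw [h1]
    have h2 : (b.den : ℚ) ^ (K + (L + l)) * ∑ i ∈ S, (g i : ℚ) * b ^ e i =
        (b.den : ℚ) ^ (L + l) * (b.num ^ L * k) := by
      rw [← hk]; ring
    rw [mul_add, h2]
    field_simp
    ring

/-- the gap principle for `|b| > 1` -/
theorem rat_cut {ι : Type*} (b : ℚ) (hb : 1 < |b|) (g : ι → ℤ) (e : ι → ℤ) (S : Finset ι)
    (L : ℕ) (G : ℤ) (hG : ∑ i ∈ S, |g i| ≤ G) (hGL : G < (b.num.natAbs : ℤ) ^ L) (E : ℤ)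
    (hgap : ∀ i ∈ S, e i ≤ E ∨ E + L ≤ e i) (hsum : ∑ i ∈ S, (g i : ℚ) * b ^ e i = 0) :
    ∑ i ∈ S with e i ≤ E, (g i : ℚ) * b ^ e i = 0 := by
  classical
  have hb0 : b ≠ 0 := by
    rintro rfl
    norm_num at hb
  set y : ℚ := ∑ i ∈ S with e i ≤ E, (g i : ℚ) * b ^ (e i - E) with hy
  have hfac : ∀ A : Finset ι, ∑ i ∈ A, (g i : ℚ) * b ^ e i =
      b ^ E * ∑ i ∈ A, (g i : ℚ) * b ^ (e i - E) := by
    intro A
    rw [mul_sum]
    refine sum_congr rfl fun i _ => ?_
    rw [zpow_sub₀ hb0]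
    have : b ^ E ≠ 0 := zpow_ne_zero _ hb0
    field_simp
  have hbE : b ^ E ≠ 0 := zpow_ne_zero _ hb0
  suffices h0 : y = 0 by rw [hfac, ← hy, h0, mul_zero]
  have hhigh : y = - ∑ i ∈ S with ¬ e i ≤ E, (g i : ℚ) * b ^ (e i - E) := by
    rw [hfac] at hsum
    have h1 := (mul_eq_zero.mp hsum).resolve_left hbE
    rw [← sum_filter_add_sum_filter_not S (fun i => e i ≤ E)] at h1
    rw [hy]
    linarith
  obtain ⟨K1, k1, hk1⟩ := exists_num_pow b hb0 g (fun i => e i - E) (S.filter fun i => e i ≤ E)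
    (fun i hi => by have := (mem_filter.mp hi).2; linarith)
  obtain ⟨K2, k2, hk2⟩ := exists_den_pow b g (fun i => e i - E) L (S.filter fun i => ¬ e i ≤ E)
    (fun i hi => by
      have h1 := (mem_filter.mp hi).1
      have h2 := (mem_filter.mp hi).2
      rcases hgap i h1 with h | h
      · exact absurd h h2
      · linarith)
  have hnum : (b.num : ℚ) ≠ 0 := by exact_mod_cast (Rat.num_ne_zero.mpr hb0)
  have hnumL : (b.num : ℚ) ^ L ≠ 0 := pow_ne_zero _ hnum
  obtain ⟨x, hx⟩ : ∃ x : ℚ, y = b.num ^ L * x := ⟨y / b.num ^ L, by field_simp⟩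
  have hxint : ∃ k : ℤ, x = k := by
    apply int_of_coprime x (b.num ^ (K1 + L)) ((b.den : ℤ) ^ K2)
    · apply IsCoprime.pow
      have := b.isCoprime_num_den
      exact this
    · refine ⟨k1, ?_⟩
      push_cast
      rw [← hk1, ← hy, hx]
      ring
    · refine ⟨-k2, ?_⟩
      push_cast
      have h1 : (b.den : ℚ) ^ K2 * (-y) = b.num ^ L * k2 := by
        rw [hhigh, neg_neg]; exact hk2
      rw [hx] at h1
      apply mul_left_cancel₀ hnumL
      linear_combination -h1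
  obtain ⟨k, hk⟩ := hxint
  have hyabs : |y| ≤ G := by
    calc |y| ≤ ∑ i ∈ S with e i ≤ E, |(g i : ℚ) * b ^ (e i - E)| := abs_sum_le_sum_abs _ _
      _ ≤ ∑ i ∈ S with e i ≤ E, (|g i| : ℚ) := by
          refine sum_le_sum fun i hi => ?_
          rw [abs_mul, abs_zpow]
          have h1 : |b| ^ (e i - E) ≤ 1 :=
            zpow_le_one_of_nonpos₀ hb.le (by have := (mem_filter.mp hi).2; linarith)
          exact mul_le_of_le_one_right (abs_nonneg _) h1
      _ ≤ ∑ i ∈ S, (|g i| : ℚ) :=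
          sum_le_sum_of_subset_of_nonneg (filter_subset _ _) fun _ _ _ => abs_nonneg _
      _ ≤ G := by exact_mod_cast hG
  have hk0 : k = 0 := by
    by_contra hne
    have h1 : (1 : ℚ) ≤ |(k : ℚ)| := by
      have := Int.one_le_abs hne
      exact_mod_cast this
    have h2 : |y| = |(b.num : ℚ)| ^ L * |(k : ℚ)| := by rw [hx, hk, abs_mul, abs_pow]
    have h3 : (G : ℚ) < |(b.num : ℚ)| ^ L := by
      have h4 : (G : ℚ) < ((b.num.natAbs : ℤ) : ℚ) ^ L := by exact_mod_cast hGL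
      rw [Int.natCast_natAbs] at h4
      push_cast at h4
      exact h4
    have h5 : (0 : ℚ) ≤ |(b.num : ℚ)| ^ L := by positivity
    nlinarith
  rw [hx, hk, hk0]
  simp

theorem abs_mul_den (b : ℚ) : |b| * b.den = |(b.num : ℚ)| := by
  have h : |(b.den : ℚ)| = b.den := abs_of_nonneg (Nat.cast_nonneg _)
  rw [← h, ← abs_mul, Rat.mul_den_eq_num]

/-- The gap principle in an arbitrary rational base. -/
theorem rat_closed {ι : Type*} [DecidableEq ι] (b : ℚ) (hb0 : b ≠ 0) (hb : |b| ≠ 1) (g : ι → ℤ)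
    (e : ι → ℤ) (S T : Finset ι) (hTS : T ⊆ S) (L : ℕ) (hL : 1 ≤ L) (G : ℤ)
    (hG : ∑ i ∈ S, |g i| ≤ G) (hGL : G < ((max b.num.natAbs b.den : ℕ) : ℤ) ^ L)
    (hcl : ∀ i ∈ T, ∀ j ∈ S, j ∉ T → ¬ |e i - e j| < L)
    (hsum : ∑ i ∈ S, (g i : ℚ) * b ^ e i = 0) : ∑ i ∈ T, (g i : ℚ) * b ^ e i = 0 := by
  rcases lt_or_gt_of_ne hb with h1 | h1
  · -- small base: pass to the inverse
    have hinv : 1 < |b⁻¹| := by
      rw [abs_inv]
      exact (one_lt_inv₀ (abs_pos.mpr hb0)).mpr h1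
    have hlt : b.num.natAbs < b.den := by
      have h2 : |b| * b.den < 1 * b.den :=
        mul_lt_mul_of_pos_right h1 (by exact_mod_cast b.den_pos)
      have h3 : |b| * b.den = |(b.num : ℚ)| := abs_mul_den b
      rw [h3, one_mul] at h2
      have h4 : (|b.num| : ℤ) < b.den := by exact_mod_cast h2
      rw [← Int.natCast_natAbs] at h4
      exact_mod_cast h4
    have hmax : max b.num.natAbs b.den = b⁻¹.num.natAbs := by
      rw [max_eq_right hlt.le, Rat.num_inv]
      rw [Int.natAbs_mul, Int.natAbs_natCast]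
      rcases lt_or_gt_of_ne (Rat.num_ne_zero.mpr hb0) with h | h
      · rw [Int.sign_eq_neg_one_of_neg h]; simp
      · rw [Int.sign_eq_one_of_pos h]; simp
    rw [hmax] at hGL
    have hconv : ∀ A : Finset ι, ∑ i ∈ A, (g i : ℚ) * b ^ e i =
        ∑ i ∈ A, (g i : ℚ) * b⁻¹ ^ (-e i) := by
      intro A
      refine sum_congr rfl fun i _ => ?_
      rw [inv_zpow, zpow_neg, inv_inv]
    rw [hconv] at hsum ⊢
    refine closed_of_cut (fun i => (g i : ℚ) * b⁻¹ ^ (-e i)) (fun i => -e i) L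
      (by exact_mod_cast hL) S ?_ S.card S T le_rfl Subset.rfl hTS hsum ?_
    · intro S' E hS' hs' hg'
      exact rat_cut b⁻¹ hinv g (fun i => -e i) S' L G
        ((sum_le_sum_of_subset_of_nonneg hS' fun _ _ _ => abs_nonneg _).trans hG) hGL E hg' hs'
    · intro i hi j hj hjT
      have := hcl i hi j hj hjT
      rw [show -e i - -e j = -(e i - e j) by ring, abs_neg]
      exact this
  · have hlt : b.den < b.num.natAbs := by
      have h2 : 1 * (b.den : ℚ) < |b| * b.den :=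
        mul_lt_mul_of_pos_right h1 (by exact_mod_cast b.den_pos)
      have h3 : |b| * b.den = |(b.num : ℚ)| := abs_mul_den b
      rw [h3, one_mul] at h2
      have h4 : (b.den : ℤ) < |b.num| := by exact_mod_cast h2
      rw [← Int.natCast_natAbs] at h4
      exact_mod_cast h4
    rw [max_eq_left hlt.le] at hGL
    refine closed_of_cut (fun i => (g i : ℚ) * b ^ (e i)) e L
      (by exact_mod_cast hL) S ?_ S.card S T le_rfl Subset.rfl hTS hsum hcl
    intro S' E hS' hs' hg'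
    exact rat_cut b h1 g e S' L G
      ((sum_le_sum_of_subset_of_nonneg hS' fun _ _ _ => abs_nonneg _).trans hG) hGL E hg' hs'

end Pool.Agent.N695.CY
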