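import Mathlib
import Pool.Agent.N695.CY.Gap
import Pool.Agent.Helper477.Sph.Bd1

set_option autoImplicit false

/-!
# Splitting vanishing sums `∑ a_i b ^ e_i x_i`

Here the `x_i` are roots of unity of any order, `b` is an arbitrary rational number different from
`0`, `1`, `-1`, and the `a_i` are fixed integral combinations of fixed roots of unity.
-/

namespace Pool.Agent.N695.CY

open Finset Polynomial

theorem exists_den {ι : Type*} [Fintype ι] (f : ι → ℚ) :
    ∃ D : ℕ, 0 < D ∧ ∀ i, ∃ k : ℤ, (D : ℚ) * f i = k := by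
  classical
  refine ⟨∏ i, (f i).den, prod_pos fun i _ => (f i).den_pos, fun i => ?_⟩
  refine ⟨(∏ j ∈ univ.erase i, ((f j).den : ℤ)) * (f i).num, ?_⟩
  rw [← mul_prod_erase univ (fun i => (f i).den) (mem_univ i)]
  push_cast
  rw [← Rat.mul_den_eq_num (f i)]
  ring

theorem mann_split {ι κ : Type} [Fintype ι] [Fintype κ] [DecidableEq ι] [DecidableEq κ]
    (q : ι → κ → ℤ) (η : κ → ℂ) (N0 : ℕ) (hN0 : 0 < N0) (hη : ∀ j, η j ^ N0 = 1) (wt : ι → ℚ)
    (x : ι → ℂ) (d : ℕ) (hd : 0 < d) (hx : ∀ i, x i ^ d = 1)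
    (h : ∑ i, (∑ j, (q i j : ℂ) * η j) * (wt i : ℂ) * x i = 0) (ω : ℂ) :
    ∑ i with x i ^ (max (Fintype.card (ι × κ)) N0).factorial = ω,
      (∑ j, (q i j : ℂ) * η j) * (wt i : ℂ) * x i = 0 := by
  classical
  set M := max (Fintype.card (ι × κ)) N0 with hM
  obtain ⟨D, hD, hn⟩ := exists_den wt
  choose n hn using hn
  have hnC : ∀ i, (D : ℂ) * (wt i : ℂ) = n i := by
    intro i
    have := congrArg (Rat.cast : ℚ → ℂ) (hn i)
    push_cast at this
    exact this
  have hDC : (D : ℂ) ≠ 0 := by exact_mod_cast hD.ne'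
  have hηM : ∀ j, η j ^ M.factorial = 1 := by
    intro j
    obtain ⟨k, hk⟩ : N0 ∣ M.factorial := Nat.dvd_factorial hN0 (le_max_right _ _)
    rw [hk, pow_mul, hη, one_pow]
  have key := Pool.Agent.Helper477.Sph.mann (d := d * N0) (Nat.mul_pos hd hN0)
    (univ : Finset (ι × κ)) M (by rw [card_univ]; exact le_max_left _ _)
    (fun p => q p.1 p.2 * n p.1) (fun p => η p.2 * x p.1) (by
      intro p _
      rw [mul_pow, mul_comm d N0, pow_mul, hη, one_pow, one_mul, mul_comm N0 d, pow_mul, hx,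
        one_pow]) (by
      rw [Fintype.sum_prod_type]
      have : ∀ i, ∑ j, ((q i j * n i : ℤ) : ℂ) * (η j * x i) =
          (D : ℂ) * ((∑ j, (q i j : ℂ) * η j) * (wt i : ℂ) * x i) := by
        intro i
        rw [sum_mul, sum_mul, mul_sum]
        refine sum_congr rfl fun j _ => ?_
        push_cast
        rw [← hnC i]
        ring
      simp only [this]
      rw [← mul_sum, h, mul_zero]) ω
  rw [sum_filter, Fintype.sum_prod_type] at key
  rw [sum_filter]
  apply mul_left_cancel₀ hDC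
  rw [mul_zero]
  refine Eq.trans ?_ key
  rw [mul_sum]
  refine sum_congr rfl fun i _ => ?_
  by_cases hi : x i ^ M.factorial = ω
  · rw [if_pos hi]
    have : ∀ j, (if (η j * x i) ^ M.factorial = ω then ((q i j * n i : ℤ) : ℂ) * (η j * x i)
        else 0) = ((q i j * n i : ℤ) : ℂ) * (η j * x i) := by
      intro j
      rw [if_pos]
      rw [mul_pow, hηM, one_mul, hi]
    simp only [this]
    rw [sum_mul, sum_mul, mul_sum]
    refine sum_congr rfl fun j _ => ?_
    push_cast
    rw [← hnC i]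
    ring
  · rw [if_neg hi, mul_zero]
    symm
    apply sum_eq_zero
    intro j _
    rw [if_neg]
    rw [mul_pow, hηM, one_mul]
    exact hi

/-- The splitting of vanishing sums whose coefficients are fixed integral combinations of roots
of unity. -/
theorem split_int {ι κ : Type} [Fintype ι] [Fintype κ] [DecidableEq ι] [DecidableEq κ]
    (q : ι → κ → ℤ) (η : κ → ℂ) (N0 : ℕ) (hN0 : 0 < N0) (hη : ∀ j, η j ^ N0 = 1) :
    ∃ N : ℕ, 0 < N ∧ ∃ G : ℕ, ∀ (b : ℚ) (e : ι → ℤ) (x : ι → ℂ) (d : ℕ), b ≠ 0 → |b| ≠ 1 →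
      0 < d → (∀ i, x i ^ d = 1) →
      ∑ i, (∑ j, (q i j : ℂ) * η j) * (b : ℂ) ^ e i * x i = 0 →
      ∀ L : ℕ, 1 ≤ L → G < (max b.num.natAbs b.den) ^ L → ∀ T : Finset ι,
        (∀ i ∈ T, ∀ j, j ∉ T → ¬ (x i ^ N = x j ^ N ∧ |e i - e j| < L)) →
        ∑ i ∈ T, (∑ j, (q i j : ℂ) * η j) * (b : ℂ) ^ e i * x i = 0 := by
  classical
  set M := max (Fintype.card (ι × κ)) N0 with hM
  set N := M.factorial with hN
  have hNpos : 0 < N := Nat.factorial_pos _
  have hηN : ∀ j, η j ^ N = 1 := by
    intro j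
    obtain ⟨k, hk⟩ : N0 ∣ N := Nat.dvd_factorial hN0 (le_max_right _ _)
    rw [hk, pow_mul, hη, one_pow]
  -- reduced polynomials
  set red : ι → (κ → Fin N) → ℤ[X] := fun i k =>
    (∑ j, C (q i j) * X ^ (k j : ℕ)) %ₘ cyclotomic N ℤ with hred
  set G : ℕ := ∑ i, ∑ k : κ → Fin N, ∑ h ∈ range N, ((red i k).coeff h).natAbs with hG
  refine ⟨N, hNpos, G, ?_⟩
  intro b e x d hb0 hb1 hd hx hsum L hL hGL T hT
  have hw := Complex.isPrimitiveRoot_exp N hNpos.ne'
  set w := Complex.exp (2 * Real.pi * Complex.I / N) with hwdef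
  have : NeZero N := ⟨hNpos.ne'⟩
  have hxne : ∀ i, x i ≠ 0 := by
    intro i h0
    have := hx i
    rw [h0, zero_pow hd.ne'] at this
    exact zero_ne_one this
  have hcast : ∀ i, ((b ^ e i : ℚ) : ℂ) = (b : ℂ) ^ e i := fun i => by push_cast; rfl
  have hclass : ∀ ω : ℂ, ∑ i with x i ^ N = ω,
      (∑ j, (q i j : ℂ) * η j) * (b : ℂ) ^ e i * x i = 0 := by
    intro ω
    have := mann_split q η N0 hN0 hη (fun i => b ^ e i) x d hd hx (by
      simp only [hcast]; exact hsum) ω
    simp only [hcast] at this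
    exact this
  rw [← sum_fiberwise_of_maps_to (s := T) (t := T.image fun i => x i ^ N) (g := fun i => x i ^ N)
    (fun i hi => mem_image_of_mem _ hi)]
  refine sum_eq_zero fun ω hω => ?_
  obtain ⟨i0, hi0T, hi0⟩ := mem_image.mp hω
  set S : Finset ι := univ.filter fun i => x i ^ N = ω with hS
  set T' : Finset ι := T.filter fun i => x i ^ N = ω with hT'
  have hT'S : T' ⊆ S := by
    intro i hi
    rw [hS, mem_filter]
    exact ⟨mem_univ _, (mem_filter.mp hi).2⟩
  -- exponents
  have hk : ∀ i j, ∃ k : Fin N, i ∈ S → w ^ (k : ℕ) = η j * x i / x i0 := by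
    intro i j
    by_cases hi : i ∈ S
    · have h1 : (η j * x i / x i0) ^ N = 1 := by
        rw [div_pow, mul_pow, hηN, one_mul, (mem_filter.mp hi).2, ← hi0]
        exact div_self (pow_ne_zero _ (hxne i0))
      obtain ⟨k, hk, hk'⟩ := hw.eq_pow_of_pow_eq_one h1
      exact ⟨⟨k, hk⟩, fun _ => hk'⟩
    · exact ⟨0, fun h => absurd h hi⟩
  choose k hk using hk
  set c : ι → ℤ[X] := fun i => red i (k i) with hc
  have hmonic : (cyclotomic N ℤ).Monic := cyclotomic.monic N ℤ
  have hcyc : aeval w (cyclotomic N ℤ) = 0 := by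
    rw [aeval_def, eval₂_eq_eval_map]
    have : (cyclotomic N ℤ).map (algebraMap ℤ ℂ) = cyclotomic N ℂ := map_cyclotomic _ _
    rw [this]
    exact hw.isRoot_cyclotomic hNpos
  have hcw : ∀ i ∈ S, aeval w (c i) = (∑ j, (q i j : ℂ) * η j) * x i / x i0 := by
    intro i hi
    have h1 : aeval w (c i) = aeval w (∑ j, C (q i j) * X ^ ((k i j : Fin N) : ℕ)) := by
      simp only [hc, hred]
      rw [modByMonic_eq_sub_mul_div, map_sub, map_mul, hcyc, zero_mul, sub_zero]
    rw [h1, map_sum, sum_mul, sum_div]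
    refine sum_congr rfl fun j _ => ?_
    rw [map_mul, map_pow, aeval_X, aeval_C, hk i j hi]
    simp only [eq_intCast]
    ring
  have hdeg : ∀ i, (c i).degree < (cyclotomic N ℤ).degree := by
    intro i
    exact degree_modByMonic_lt _ hmonic
  -- the polynomial identity
  have hpoly : ∀ A : Finset ι, A ⊆ S →
      (∑ i ∈ A, (∑ j, (q i j : ℂ) * η j) * (b : ℂ) ^ e i * x i = 0 ↔
        ∀ h : ℕ, ∑ i ∈ A, ((c i).coeff h : ℚ) * b ^ e i = 0) := by
    intro A hA
    set P : ℚ[X] := ∑ i ∈ A, C (b ^ e i) * (c i).map (algebraMap ℤ ℚ) with hP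
    have hPw : aeval w P = (∑ i ∈ A, (∑ j, (q i j : ℂ) * η j) * (b : ℂ) ^ e i * x i) / x i0 := by
      rw [hP, map_sum, sum_div]
      refine sum_congr rfl fun i hi => ?_
      rw [map_mul, aeval_C, aeval_map_algebraMap, hcw i (hA hi)]
      simp only [eq_ratCast]
      rw [hcast]
      ring
    have hPcoeff : ∀ h, P.coeff h = ∑ i ∈ A, ((c i).coeff h : ℚ) * b ^ e i := by
      intro h
      rw [hP, finsetSum_coeff]
      refine sum_congr rfl fun i _ => ?_
      rw [coeff_C_mul, coeff_map]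
      simp only [eq_intCast]
      ring
    have hPdeg : P.degree < (cyclotomic N ℚ).degree := by
      have hcyceq : (cyclotomic N ℚ).degree = (cyclotomic N ℤ).degree := by
        rw [degree_cyclotomic, degree_cyclotomic]
      rw [hcyceq]
      refine lt_of_le_of_lt (degree_sum_le _ _) ?_
      rw [Finset.sup_lt_iff (by
        rw [degree_cyclotomic]
        exact WithBot.bot_lt_coe _)]
      intro i _
      refine lt_of_le_of_lt ?_ (hdeg i)
      rw [degree_C_mul (zpow_ne_zero _ hb0)]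
      exact degree_map_le
    have hPiff : aeval w P = 0 ↔ P = 0 := by
      constructor
      · intro h0
        by_contra hne
        have h1 := minpoly.degree_le_of_ne_zero ℚ w hne h0
        rw [← cyclotomic_eq_minpoly_rat hw hNpos] at h1
        exact absurd hPdeg (not_lt.mpr h1)
      · intro h0
        rw [h0, map_zero]
    constructor
    · intro h0 h
      rw [← hPcoeff, hPiff.mp (by rw [hPw, h0, zero_div]), coeff_zero]
    · intro h0
      have h1 : P = 0 := by
        ext h
        rw [hPcoeff, h0 h, coeff_zero]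
      have h2 := hPiff.mpr h1
      rw [hPw] at h2
      rcases div_eq_zero_iff.mp h2 with h3 | h3
      · exact h3
      · exact absurd h3 (hxne i0)
  rw [hpoly T' hT'S]
  intro h
  have hS0 := (hpoly S Subset.rfl).mp (hclass ω) h
  refine rat_closed b hb0 hb1 (fun i => (c i).coeff h) e S T' hT'S L hL G ?_ (by exact_mod_cast hGL)
    ?_ hS0
  · by_cases hh : h < N
    · have h1 : ∀ i ∈ S, |(c i).coeff h| ≤ ((∑ k : κ → Fin N, ∑ h ∈ range N,
          ((red i k).coeff h).natAbs : ℕ) : ℤ) := by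
        intro i _
        rw [← Int.natCast_natAbs]
        have h2 : ((c i).coeff h).natAbs ≤ ∑ h ∈ range N, ((red i (k i)).coeff h).natAbs :=
          single_le_sum (f := fun h => ((red i (k i)).coeff h).natAbs)
            (fun _ _ => Nat.zero_le _) (mem_range.mpr hh)
        have h3 : ∑ h ∈ range N, ((red i (k i)).coeff h).natAbs ≤
            ∑ k : κ → Fin N, ∑ h ∈ range N, ((red i k).coeff h).natAbs :=
          single_le_sum (f := fun k : κ → Fin N => ∑ h ∈ range N, ((red i k).coeff h).natAbs)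
            (fun _ _ => Nat.zero_le _) (mem_univ (k i))
        exact_mod_cast h2.trans h3
      refine (sum_le_sum h1).trans ?_
      rw [hG]
      push_cast
      exact sum_le_sum_of_subset_of_nonneg (subset_univ _) fun _ _ _ => by positivity
    · have h1 : ∀ i, (c i).coeff h = 0 := by
        intro i
        apply coeff_eq_zero_of_degree_lt
        refine lt_of_lt_of_le (hdeg i) ?_
        rw [degree_cyclotomic]
        have := Nat.totient_le N
        exact_mod_cast this.trans (not_lt.mp hh)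
      simp [h1]
  · intro i hi j hj hjT hcon
    rw [hT', mem_filter] at hi hjT
    have hj1 := (mem_filter.mp hj).2
    exact hT i hi.1 j (fun hjT1 => hjT ⟨hjT1, hj1⟩) ⟨hi.2.trans hj1.symm, hcon⟩

end Pool.Agent.N695.CY
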