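import Mathlib
import Pool.Agent.N695.CY.Cyc

set_option autoImplicit false

/-!
# Splitting vanishing sums with arbitrary complex coefficients
-/

namespace Pool.Agent.N695.CY

open Finset

/-- the complex roots of unity -/
def muSet : Set ℂ := {z | ∃ n : ℕ, 0 < n ∧ z ^ n = 1}

/-- vanishing sums `∑ c_i b ^ e_i x_i` split along the classes of `x_i ^ N` and the gaps -/
def SplitAt {ι : Type} [Fintype ι] [DecidableEq ι] (c : ι → ℂ) (N G : ℕ) : Prop :=
  ∀ (b : ℚ) (e : ι → ℤ) (x : ι → ℂ) (d : ℕ), b ≠ 0 → |b| ≠ 1 →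
    0 < d → (∀ i, x i ^ d = 1) →
    ∑ i, c i * (b : ℂ) ^ e i * x i = 0 →
    ∀ L : ℕ, 1 ≤ L → G < (max b.num.natAbs b.den) ^ L → ∀ T : Finset ι,
      (∀ i ∈ T, ∀ j, j ∉ T → ¬ (x i ^ N = x j ^ N ∧ |e i - e j| < L)) →
      ∑ i ∈ T, c i * (b : ℂ) ^ e i * x i = 0

theorem SplitAt.mono {ι : Type} [Fintype ι] [DecidableEq ι] {c : ι → ℂ} {N G N' G' : ℕ}
    (h : SplitAt c N G) (hN : N ∣ N') (hG : G ≤ G') : SplitAt c N' G' := by
  intro b e x d hb0 hb1 hd hx hsum L hL hGL T hT
  refine h b e x d hb0 hb1 hd hx hsum L hL (lt_of_le_of_lt hG hGL) T ?_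
  intro i hi j hj hcon
  obtain ⟨k, rfl⟩ := hN
  exact hT i hi j hj ⟨by rw [pow_mul, pow_mul, hcon.1], hcon.2⟩

theorem split_span {ι : Type} [Fintype ι] [DecidableEq ι] (c : ι → ℂ)
    (hc : ∀ i, c i ∈ Submodule.span ℚ muSet) : ∃ N : ℕ, 0 < N ∧ ∃ G : ℕ, SplitAt c N G := by
  classical
  have h1 : ∀ i, ∃ f : ℂ →₀ ℚ, (f.support : Set ℂ) ⊆ muSet ∧ f.sum (fun m r => r • m) = c i :=
    fun i => Submodule.mem_span_set.mp (hc i)
  choose f hf1 hf2 using h1
  set K : Finset ℂ := univ.biUnion fun i => (f i).support with hK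
  have hKmu : ∀ z : K, ∃ n : ℕ, 0 < n ∧ (z : ℂ) ^ n = 1 := by
    rintro ⟨z, hz⟩
    obtain ⟨i, _, hi⟩ := mem_biUnion.mp hz
    exact hf1 i hi
  choose n hn0 hn1 using hKmu
  obtain ⟨D, hD, hq⟩ := exists_den (fun p : ι × K => f p.1 p.2)
  choose q hq using hq
  have hDC : (D : ℂ) ≠ 0 := by exact_mod_cast hD.ne'
  have hcD : ∀ i, ∑ z : K, ((q (i, z) : ℤ) : ℂ) * (z : ℂ) = D * c i := by
    intro i
    rw [← hf2 i, Finsupp.sum_of_support_subset (f i) (s := K)
      (subset_biUnion_of_mem (fun i => (f i).support) (mem_univ i)) _ (by simp)]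
    rw [← sum_coe_sort K, mul_sum]
    refine sum_congr rfl fun z _ => ?_
    have := congrArg (Rat.cast : ℚ → ℂ) (hq (i, z))
    push_cast at this
    rw [Rat.smul_def, ← mul_assoc, this]
  obtain ⟨N, hN, G, hNG⟩ := split_int (fun i (z : K) => q (i, z)) (fun z : K => (z : ℂ))
    (∏ z, n z) (prod_pos fun z _ => hn0 z) (by
      intro z
      obtain ⟨k, hk⟩ : n z ∣ ∏ z, n z := dvd_prod_of_mem _ (mem_univ z)
      rw [hk, pow_mul, hn1, one_pow])
  refine ⟨N, hN, G, ?_⟩
  intro b e x d hb0 hb1 hd hx hsum L hL hGL T hT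
  have := hNG b e x d hb0 hb1 hd hx (by
    simp only [hcD]
    have h2 : ∀ i, (D : ℂ) * c i * (b : ℂ) ^ e i * x i = D * (c i * (b : ℂ) ^ e i * x i) :=
      fun i => by ring
    simp only [h2]
    rw [← mul_sum, hsum, mul_zero]) L hL hGL T hT
  simp only [hcD] at this
  apply mul_left_cancel₀ hDC
  rw [mul_zero, ← this, mul_sum]
  exact sum_congr rfl fun i _ => by ring

/-- the field generated by all roots of unity -/
noncomputable abbrev Qab : IntermediateField ℚ ℂ := IntermediateField.adjoin ℚ muSet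

theorem mem_span_of_mem_Qab (z : ℂ) (hz : z ∈ Qab) : z ∈ Submodule.span ℚ muSet := by
  have halg : ∀ x ∈ muSet, IsAlgebraic ℚ x := by
    rintro x ⟨n, hn, hx⟩
    refine ⟨Polynomial.X ^ n - 1, ?_, by simp [hx]⟩
    exact Polynomial.X_pow_sub_C_ne_zero hn 1
  have h1 : z ∈ (Algebra.adjoin ℚ muSet) := by
    rw [← IntermediateField.adjoin_toSubalgebra_of_isAlgebraic halg]
    exact hz
  have h2 : z ∈ Subalgebra.toSubmodule (Algebra.adjoin ℚ muSet) := h1
  rw [Algebra.adjoin_eq_span] at h2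
  have h3 : ((Submonoid.closure muSet : Submonoid ℂ) : Set ℂ) ⊆ muSet := by
    intro y hy
    induction hy using Submonoid.closure_induction with
    | mem x hx => exact hx
    | one => exact ⟨1, one_pos, one_pow _⟩
    | mul x y _ _ hx hy =>
      obtain ⟨n, hn, hx⟩ := hx
      obtain ⟨m, hm, hy⟩ := hy
      refine ⟨n * m, Nat.mul_pos hn hm, ?_⟩
      rw [mul_pow, pow_mul, hx, one_pow, mul_comm n m, pow_mul, hy, one_pow, one_mul]
  exact Submodule.span_mono h3 h2

theorem mu_mem_Qab (z : ℂ) (d : ℕ) (hd : 0 < d) (hz : z ^ d = 1) : z ∈ Qab :=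
  IntermediateField.subset_adjoin ℚ muSet ⟨d, hd, hz⟩

/-- The splitting for arbitrary complex coefficients. -/
theorem split_coef {ι : Type} [Fintype ι] [DecidableEq ι] (c : ι → ℂ) :
    ∃ N : ℕ, 0 < N ∧ ∃ G : ℕ, SplitAt c N G := by
  classical
  let v := Module.Basis.ofVectorSpace Qab ℂ
  set H : Finset _ := univ.biUnion fun i => (v.repr (c i)).support with hH
  have h1 : ∀ h : H, ∃ N : ℕ, 0 < N ∧ ∃ G : ℕ,
      SplitAt (fun i => ((v.repr (c i) h : Qab) : ℂ)) N G := fun h =>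
    split_span _ fun i => mem_span_of_mem_Qab _ (v.repr (c i) h).2
  choose N hN G hG using h1
  refine ⟨∏ h, N h, prod_pos fun h _ => hN h, ∑ h, G h, ?_⟩
  intro b e x d hb0 hb1 hd hx hsum L hL hGL T hT
  -- the points lie in the field
  have hy : ∀ i, ∃ y : Qab, (y : ℂ) = (b : ℂ) ^ e i * x i := by
    intro i
    refine ⟨⟨(b : ℂ) ^ e i * x i, ?_⟩, rfl⟩
    refine mul_mem (zpow_mem ?_ _) (mu_mem_Qab _ d hd (hx i))
    exact SubfieldClass.ratCast_mem _ b
  choose y hy using hy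
  have hconv : ∀ A : Finset ι, ∑ i ∈ A, c i * (b : ℂ) ^ e i * x i = ∑ i ∈ A, y i • c i := by
    intro A
    refine sum_congr rfl fun i _ => ?_
    rw [IntermediateField.smul_def, hy, smul_eq_mul]
    ring
  have hcoord : ∀ (A : Finset ι) h, ((v.repr (∑ i ∈ A, y i • c i) h : Qab) : ℂ) =
      ∑ i ∈ A, ((v.repr (c i) h : Qab) : ℂ) * (b : ℂ) ^ e i * x i := by
    intro A h
    rw [map_sum, Finsupp.finsetSum_apply]
    push_cast
    refine sum_congr rfl fun i _ => ?_
    rw [map_smul, Finsupp.smul_apply, smul_eq_mul]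
    push_cast
    rw [hy]
    ring
  rw [hconv]
  apply v.repr.injective
  rw [map_zero]
  ext h
  rw [Finsupp.zero_apply]
  rw [hcoord]
  push_cast
  by_cases hh : h ∈ H
  · have h2 := (hG ⟨h, hh⟩).mono (N' := ∏ h, N h) (G' := ∑ h, G h)
      (dvd_prod_of_mem _ (mem_univ _)) (single_le_sum (f := G) (fun _ _ => Nat.zero_le _)
        (mem_univ (⟨h, hh⟩ : H)))
    refine h2 b e x d hb0 hb1 hd hx ?_ L hL hGL T hT
    have h3 := hcoord univ h
    rw [← hconv, hsum, map_zero, Finsupp.zero_apply] at h3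
    rw [← h3]
    rfl
  · apply sum_eq_zero
    intro i _
    have : v.repr (c i) h = 0 := by
      by_contra hne
      exact hh (mem_biUnion.mpr ⟨i, mem_univ _, Finsupp.mem_support_iff.mpr hne⟩)
    rw [this]
    simp

/-- The finite set of ratios which can link two terms of a minimal vanishing sum. -/
theorem split_fin {ι : Type} [Fintype ι] [DecidableEq ι] (c : ι → ℂ) :
    ∃ R : Finset ℂ, ∀ (b : ℚ) (e : ι → ℤ) (x : ι → ℂ) (d : ℕ), b ≠ 0 → |b| ≠ 1 →
      0 < d → (∀ i, x i ^ d = 1) → ∑ i, c i * (b : ℂ) ^ e i * x i = 0 →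
      ∀ T : Finset ι,
        (∀ i ∈ T, ∀ j, j ∉ T → ((b : ℂ) ^ e i * x i) / ((b : ℂ) ^ e j * x j) ∉ R) →
        ∑ i ∈ T, c i * (b : ℂ) ^ e i * x i = 0 := by
  classical
  obtain ⟨N, hN, G, hNG⟩ := split_coef c
  set B : Finset ℚ := ((Icc (-((G : ℤ) + 1)) (G + 1)) ×ˢ (range (G + 2))).image
    fun p => (p.1 : ℚ) / (p.2 : ℚ) with hB
  set R : Finset ℂ := (B ×ˢ ((Icc (-((G : ℤ) + 1)) (G + 1)) ×ˢ
    (Polynomial.nthRootsFinset N (1 : ℂ)))).image fun p => (p.1 : ℂ) ^ p.2.1 * p.2.2 with hR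
  have hmemB : ∀ b : ℚ, max b.num.natAbs b.den ≤ G + 1 → b ∈ B := by
    intro b hb
    rw [hB, mem_image]
    refine ⟨(b.num, b.den), ?_, ?_⟩
    · rw [mem_product, mem_Icc, mem_range]
      have h1 := (le_max_left _ _).trans hb
      have h2 := (le_max_right _ _).trans hb
      refine ⟨⟨by omega, by omega⟩, by omega⟩
    · exact Rat.num_div_den b
  refine ⟨R, ?_⟩
  intro b e x d hb0 hb1 hd hx hsum T hT
  have hbC : (b : ℂ) ≠ 0 := by exact_mod_cast hb0
  have hxne : ∀ i, x i ≠ 0 := by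
    intro i h0
    have := hx i
    rw [h0, zero_pow hd.ne'] at this
    exact zero_ne_one this
  have hratio : ∀ i j, ((b : ℂ) ^ e i * x i) / ((b : ℂ) ^ e j * x j) =
      (b : ℂ) ^ (e i - e j) * (x i / x j) := by
    intro i j
    rw [zpow_sub₀ hbC]
    have := hxne j
    have := zpow_ne_zero (e j) hbC
    field_simp
  have hroot : ∀ i j, x i ^ N = x j ^ N → x i / x j ∈ Polynomial.nthRootsFinset N (1 : ℂ) := by
    intro i j hij
    rw [Polynomial.mem_nthRootsFinset hN, div_pow, hij]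
    exact div_self (pow_ne_zero _ (hxne j))
  by_cases hbig : G < max b.num.natAbs b.den
  · -- large base
    refine hNG b e x d hb0 hb1 hd hx hsum 1 le_rfl (by rwa [pow_one]) T ?_
    rintro i hi j hj ⟨h1, h2⟩
    have h3 : e i - e j = 0 := by
      have := abs_lt.mp h2
      push_cast at this
      omega
    apply hT i hi j hj
    rw [hratio, h3, hR, mem_image]
    refine ⟨(1, (0, x i / x j)), ?_, by simp⟩
    rw [mem_product, mem_product]
    refine ⟨hmemB 1 (by simp), ?_, hroot i j h1⟩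
    simp only [mem_Icc]
    constructor <;> omega
  · -- small base
    push Not at hbig
    have hmax : 2 ≤ max b.num.natAbs b.den := by
      by_contra hcon
      push Not at hcon
      have h1 : b.den = 1 := by
        have := b.den_pos
        have := le_max_right b.num.natAbs b.den
        omega
      have h2 : b.num.natAbs ≤ 1 := by
        have := le_max_left b.num.natAbs b.den
        omega
      have h3 : b = b.num := by
        conv_lhs => rw [← Rat.num_div_den b, h1]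
        simp
      have h4 : b.num.natAbs ≠ 0 := by
        rw [Int.natAbs_ne_zero, Rat.num_ne_zero]
        exact hb0
      have h5 : b.num.natAbs = 1 := by omega
      apply hb1
      rw [h3]
      have h6 : |b.num| = 1 := by rw [← Int.natCast_natAbs, h5]; rfl
      exact_mod_cast h6
    refine hNG b e x d hb0 hb1 hd hx hsum (G + 1) (by omega) ?_ T ?_
    · calc G < 2 ^ G := Nat.lt_two_pow_self
        _ ≤ 2 ^ (G + 1) := Nat.pow_le_pow_right (by norm_num) (by omega)
        _ ≤ _ := Nat.pow_le_pow_left hmax _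
    · rintro i hi j hj ⟨h1, h2⟩
      apply hT i hi j hj
      rw [hratio, hR, mem_image]
      refine ⟨(b, (e i - e j, x i / x j)), ?_, rfl⟩
      rw [mem_product, mem_product]
      refine ⟨hmemB b (by omega), ?_, hroot i j h1⟩
      have := abs_lt.mp h2
      simp only [mem_Icc]
      push_cast at this
      constructor <;> omega

end Pool.Agent.N695.CY
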