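import Mathlib
import Pool.Agent.N695.CY.Cyc

set_option autoImplicit false

/-!
# Integer vectors, kernels and torsion

Linear algebra behind cosets of subtori.
-/

namespace Pool.Agent.N695.CY

open Finset

/-- a linear map has a generalised inverse -/
theorem exists_genInv {V W : Type*} [AddCommGroup V] [Module ℚ V] [AddCommGroup W] [Module ℚ W]
    (f : V →ₗ[ℚ] W) : ∃ g : W →ₗ[ℚ] V, ∀ v, f (g (f v)) = f v := by
  obtain ⟨h, hh⟩ := f.rangeRestrict.exists_rightInverse_of_surjective f.range_rangeRestrict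
  obtain ⟨g, hg⟩ := LinearMap.exists_extend h
  refine ⟨g, fun v => ?_⟩
  have h1 : g (f v) = h ⟨f v, LinearMap.mem_range_self f v⟩ := by
    have := LinearMap.congr_fun hg ⟨f v, LinearMap.mem_range_self f v⟩
    exact this
  rw [h1]
  have h2 := LinearMap.congr_fun hh ⟨f v, LinearMap.mem_range_self f v⟩
  have h3 := congrArg Subtype.val h2
  exact h3

/-- If all the `⟨λ_i, w⟩` are integers then `w` is, up to a rational vector of bounded
denominator, a combination of fixed integral vectors orthogonal to all the `λ_i`. -/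
theorem torus_split {I J : Type} [Fintype I] [Fintype J] [DecidableEq I] [DecidableEq J]
    (l : I → J → ℤ) : ∃ (D : ℕ) (n : J → J → ℤ), 0 < D ∧
      (∀ i a, ∑ j, l i j * n a j = 0) ∧
      ∀ w : J → ℂ, (∀ i, ∃ k : ℤ, ∑ j, (l i j : ℂ) * w j = k) →
        ∃ (x : J → ℤ) (s : J → ℂ), ∀ j, w j = (x j : ℂ) / D + ∑ a, s a * n a j := by
  classical
  -- the rational linear map
  set f : (J → ℚ) →ₗ[ℚ] (I → ℚ) := Matrix.toLin' (Matrix.of fun i j => (l i j : ℚ)) with hf
  have hfa : ∀ v i, f v i = ∑ j, (l i j : ℚ) * v j := by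
    intro v i
    rw [hf, Matrix.toLin'_apply]
    rfl
  obtain ⟨g, hg⟩ := exists_genInv f
  -- `P = 1 - g f` is the projection onto the kernel
  set A : J → I → ℚ := fun j i => g (Pi.single i 1) j with hA
  have hga : ∀ y j, g y j = ∑ i, y i * A j i := by
    intro y j
    conv_lhs => rw [← univ_sum_single y]
    rw [map_sum, Finset.sum_apply]
    refine sum_congr rfl fun i _ => ?_
    have : Pi.single i (y i) = y i • (Pi.single i (1 : ℚ) : I → ℚ) := by
      rw [← Pi.single_smul, smul_eq_mul, mul_one]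
    rw [this, map_smul, Pi.smul_apply, smul_eq_mul]
  obtain ⟨D, hD, hq⟩ := exists_den (fun p : J × I => A p.1 p.2)
  choose q hq using hq
  have hDQ : (D : ℚ) ≠ 0 := by exact_mod_cast hD.ne'
  have hDC : (D : ℂ) ≠ 0 := by exact_mod_cast hD.ne'
  -- the identity `l g l = l` in integers
  have hlgl : ∀ i a, ∑ j, l i j * ∑ i', q (j, i') * l i' a = D * l i a := by
    intro i a
    have h1 : f (g (f (Pi.single a (1 : ℚ)))) i = f (Pi.single a (1 : ℚ)) i :=
      congrFun (hg (Pi.single a (1 : ℚ))) i
    simp only [hga, hfa] at h1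
    have h2 : ∀ i', ∑ j, (l i' j : ℚ) * (Pi.single a (1 : ℚ) : J → ℚ) j = l i' a := by
      intro i'
      rw [sum_eq_single a (fun j _ hj => by rw [Pi.single_eq_of_ne hj, mul_zero])
        (fun h => absurd (mem_univ _) h), Pi.single_eq_same, mul_one]
    simp only [h2] at h1
    have h3 : ((∑ j, l i j * ∑ i', q (j, i') * l i' a : ℤ) : ℚ) = ((D * l i a : ℤ) : ℚ) := by
      push_cast
      rw [← h1, mul_sum]
      refine sum_congr rfl fun j _ => ?_
      rw [mul_left_comm (D : ℚ), mul_sum (s := univ) (a := (D : ℚ))]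
      refine congrArg (fun t => (l i j : ℚ) * t) (sum_congr rfl fun i' _ => ?_)
      rw [← hq]
      ring
    exact_mod_cast h3
  -- the kernel vectors
  refine ⟨D, fun a j => (if a = j then (D : ℤ) else 0) - ∑ i', q (j, i') * l i' a, hD, ?_, ?_⟩
  · intro i a
    simp only [mul_sub, sum_sub_distrib]
    rw [hlgl]
    rw [sum_eq_single a (fun j _ hj => by rw [if_neg (Ne.symm hj), mul_zero])
      (fun h => absurd (mem_univ _) h), if_pos rfl]
    ring
  · intro w hw
    choose k hk using hw
    refine ⟨fun j => ∑ i, q (j, i) * k i, fun a => w a / D, fun j => ?_⟩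
    push_cast
    simp only [mul_sub, sum_sub_distrib]
    have h1 : ∑ a, w a / (D : ℂ) * ((if a = j then (D : ℤ) else 0 : ℤ) : ℂ) = w j := by
      rw [sum_eq_single j (fun a _ ha => by rw [if_neg ha]; simp)
        (fun h => absurd (mem_univ _) h), if_pos rfl]
      push_cast
      field_simp
    have h2 : ∑ a, w a / (D : ℂ) * ∑ i', (q (j, i') : ℂ) * (l i' a : ℂ) =
        (∑ i, (q (j, i) : ℂ) * (k i : ℂ)) / D := by
      rw [sum_div]
      simp only [mul_sum]
      rw [sum_comm]
      refine sum_congr rfl fun i _ => ?_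
      rw [← hk, mul_sum, sum_div]
      exact sum_congr rfl fun a _ => by ring
    have h3 : ∀ a, ((if a = j then (D : ℂ) else 0)) = ((if a = j then (D : ℤ) else 0 : ℤ) : ℂ) := by
      intro a
      split_ifs <;> push_cast <;> rfl
    simp only [h3]
    rw [h1, h2]
    ring

end Pool.Agent.N695.CY
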