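import Mathlib
import Pool.Agent.N695.CY.Coef
import Pool.Agent.N695.CY.Torus

set_option autoImplicit false

/-!
# Solutions of polynomial systems in powers of a rational number times roots of unity

They lie on finitely many cosets of subtori contained in the variety, uniformly in the rational
number.
-/

namespace Pool.Agent.N695.CY

open Finset MvPolynomial

/-- all coordinates are powers of one rational number `b ≠ 0, 1, -1` times roots of unity -/
def IsSol {J : Type} (z : J → ℂ) : Prop :=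
  ∃ (b : ℚ) (m : J → ℤ) (x : J → ℂ) (d : ℕ), b ≠ 0 ∧ |b| ≠ 1 ∧ 0 < d ∧
    (∀ j, x j ^ d = 1) ∧ ∀ j, z j = (b : ℂ) ^ m j * x j

theorem zpow_sum_ne {ι : Type*} (b : ℂ) (hb : b ≠ 0) (f : ι → ℤ) (s : Finset ι) :
    b ^ (∑ i ∈ s, f i) = ∏ i ∈ s, b ^ f i := by
  classical
  induction s using Finset.induction_on with
  | empty => simp
  | insert a s ha ih => rw [sum_insert ha, prod_insert ha, zpow_add₀ hb, ih]

/-- the monomial -/
def mon {J : Type} [Fintype J] (z : J → ℂ) (α : J →₀ ℕ) : ℂ := ∏ j, z j ^ α j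

theorem IsSol.ne_zero {J : Type} {z : J → ℂ} (h : IsSol z) (j : J) : z j ≠ 0 := by
  obtain ⟨b, m, x, d, hb0, hb1, hd, hx, hz⟩ := h
  rw [hz]
  refine mul_ne_zero (zpow_ne_zero _ (by exact_mod_cast hb0)) ?_
  intro h0
  have := hx j
  rw [h0, zero_pow hd.ne'] at this
  exact zero_ne_one this

theorem mon_ne_zero {J : Type} [Fintype J] (z : J → ℂ) (hz : ∀ j, z j ≠ 0) (α : J →₀ ℕ) :
    mon z α ≠ 0 := prod_ne_zero_iff.mpr fun j _ => pow_ne_zero _ (hz j)

theorem split_mon {J : Type} [Fintype J] [DecidableEq J] (G : MvPolynomial J ℂ) :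
    ∃ R : Finset ℂ, ∀ z : J → ℂ, IsSol z → eval z G = 0 → ∀ T : Finset (J →₀ ℕ), T ⊆ G.support →
      (∀ α ∈ T, ∀ β ∈ G.support, β ∉ T → mon z α / mon z β ∉ R) →
      ∑ α ∈ T, coeff α G * mon z α = 0 := by
  classical
  obtain ⟨R, hR⟩ := split_fin (fun α : G.support => coeff (α : J →₀ ℕ) G)
  refine ⟨R, ?_⟩
  rintro z ⟨b, m, x, d, hb0, hb1, hd, hx, hz⟩ hG T hT hcl
  have hbC : (b : ℂ) ≠ 0 := by exact_mod_cast hb0
  have hmon : ∀ α : J →₀ ℕ, mon z α = (b : ℂ) ^ (∑ j, m j * (α j : ℤ)) * ∏ j, x j ^ α j := by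
    intro α
    rw [mon, zpow_sum_ne _ hbC, ← prod_mul_distrib]
    refine prod_congr rfl fun j _ => ?_
    rw [hz, mul_pow, zpow_mul, zpow_natCast]
  have key := hR b (fun α => ∑ j, m j * ((α : J →₀ ℕ) j : ℤ))
    (fun α => ∏ j, x j ^ (α : J →₀ ℕ) j) d hb0 hb1 hd (by
      intro α
      rw [← prod_pow]
      refine prod_eq_one fun j _ => ?_
      rw [← pow_mul, mul_comm, pow_mul, hx, one_pow]) (by
      rw [eval_eq'] at hG
      rw [← hG, ← sum_coe_sort G.support]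
      refine sum_congr rfl fun α _ => ?_
      rw [mul_assoc, ← hmon]
      rfl) (univ.filter fun α : G.support => (α : J →₀ ℕ) ∈ T) (by
      intro α hα β hβ
      rw [← hmon, ← hmon]
      exact hcl α (mem_filter.mp hα).2 β β.2 fun h => hβ (mem_filter.mpr ⟨mem_univ _, h⟩))
  rw [← key, sum_filter]
  have h1 : ∀ α : G.support, (if (α : J →₀ ℕ) ∈ T then coeff (α : J →₀ ℕ) G *
      (b : ℂ) ^ (∑ j, m j * ((α : J →₀ ℕ) j : ℤ)) * ∏ j, x j ^ (α : J →₀ ℕ) j else 0) =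
      (fun α : J →₀ ℕ => if α ∈ T then coeff α G * mon z α else 0) α := by
    intro α
    simp only [hmon, mul_assoc]
  simp only [h1]
  rw [sum_coe_sort G.support (fun α : J →₀ ℕ => if α ∈ T then coeff α G * mon z α else 0),
    ← sum_filter]
  congr 1
  ext α
  rw [mem_filter]
  exact ⟨fun h => ⟨hT h, h⟩, fun h => h.2⟩

theorem mon_torus {J : Type} [Fintype J] [DecidableEq J] (z : J → ℂ) (n : J → J → ℤ)
    (ρ : J → ℂ) (hρ : ∀ a, ρ a ≠ 0) (α : J →₀ ℕ) :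
    mon (fun j => z j * ∏ a, ρ a ^ n a j) α =
      mon z α * ∏ a, ρ a ^ (∑ j, n a j * (α j : ℤ)) := by
  rw [mon, mon]
  have h1 : ∀ a, ρ a ^ (∑ j, n a j * (α j : ℤ)) = ∏ j, (ρ a ^ n a j) ^ α j := by
    intro a
    rw [zpow_sum_ne _ (hρ a)]
    refine prod_congr rfl fun j _ => ?_
    rw [zpow_mul, zpow_natCast]
  simp only [h1]
  rw [prod_comm, ← prod_mul_distrib]
  refine prod_congr rfl fun j _ => ?_
  rw [mul_pow, prod_pow]

/-- moving along the kernel torus keeps the equation -/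
theorem path_zero {J : Type} [Fintype J] [DecidableEq J] (G : MvPolynomial J ℂ) (R : Finset ℂ)
    (z : J → ℂ)
    (hsplit : ∀ T : Finset (J →₀ ℕ), T ⊆ G.support →
      (∀ α ∈ T, ∀ β ∈ G.support, β ∉ T → mon z α / mon z β ∉ R) →
      ∑ α ∈ T, coeff α G * mon z α = 0)
    (n : J → J → ℤ)
    (hn : ∀ α ∈ G.support, ∀ β ∈ G.support, mon z α / mon z β ∈ R →
      ∀ a, ∑ j, ((α j : ℤ) - (β j : ℤ)) * n a j = 0)
    (ρ : J → ℂ) (hρ : ∀ a, ρ a ≠ 0) :
    eval (fun j => z j * ∏ a, ρ a ^ n a j) G = 0 := by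
  classical
  rw [eval_eq']
  have h0 : ∀ α ∈ G.support, coeff α G * ∏ j, (z j * ∏ a, ρ a ^ n a j) ^ α j =
      coeff α G * (mon z α * ∏ a, ρ a ^ (∑ j, n a j * (α j : ℤ))) := by
    intro α _
    rw [← mon_torus z n ρ hρ α]
    rfl
  rw [sum_congr rfl h0]
  rw [← sum_fiberwise_of_maps_to (s := G.support)
    (t := G.support.image fun α => (fun a => ∑ j, n a j * (α j : ℤ)))
    (g := fun α => (fun a => ∑ j, n a j * (α j : ℤ)))
    (fun α hα => mem_image_of_mem _ hα)]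
  refine sum_eq_zero fun E hE => ?_
  have h1 : ∀ α ∈ G.support.filter (fun α => (fun a => ∑ j, n a j * (α j : ℤ)) = E),
      coeff α G * (mon z α * ∏ a, ρ a ^ (∑ j, n a j * (α j : ℤ))) =
        coeff α G * mon z α * ∏ a, ρ a ^ E a := by
    intro α hα
    rw [← (mem_filter.mp hα).2, mul_assoc]
  rw [sum_congr rfl h1, ← sum_mul, hsplit _ (filter_subset _ _), zero_mul]
  intro α hα β hβ hβE hmem
  apply hβE
  rw [mem_filter]
  refine ⟨hβ, ?_⟩
  rw [← (mem_filter.mp hα).2]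
  funext a
  have := hn α (mem_filter.mp hα).1 β hβ hmem a
  have h2 : ∑ j, ((α j : ℤ) - (β j : ℤ)) * n a j =
      ∑ j, n a j * (α j : ℤ) - ∑ j, n a j * (β j : ℤ) := by
    rw [← sum_sub_distrib]
    exact sum_congr rfl fun j _ => by ring
  rw [h2] at this
  linarith

/-- The structure theorem. -/
theorem structure_thm {J Φ : Type} [Fintype J] [DecidableEq J] [Fintype Φ]
    (G : Φ → MvPolynomial J ℂ) :
    ∃ C : Set ((J → ℂ) × (J → J → ℤ)), C.Finite ∧
      (∀ c ∈ C, (∀ j, c.1 j ≠ 0) ∧ ∀ σ : J → ℂ, (∀ a, σ a ≠ 0) →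
        ∀ F, eval (fun j => c.1 j * ∏ a, σ a ^ c.2 a j) (G F) = 0) ∧
      ∀ z, IsSol z → (∀ F, eval z (G F) = 0) →
        ∃ c ∈ C, ∃ σ : J → ℂ, (∀ a, σ a ≠ 0) ∧ ∀ j, z j = c.1 j * ∏ a, σ a ^ c.2 a j := by
  classical
  -- the ratios
  choose R' hR' using fun F => split_mon (G F)
  set R : Finset ℂ := univ.biUnion R' with hRdef
  have hR : ∀ F z, IsSol z → eval z (G F) = 0 → ∀ T : Finset (J →₀ ℕ), T ⊆ (G F).support →
      (∀ α ∈ T, ∀ β ∈ (G F).support, β ∉ T → mon z α / mon z β ∉ R) →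
      ∑ α ∈ T, coeff α (G F) * mon z α = 0 := by
    intro F z hz h0 T hT hcl
    refine hR' F z hz h0 T hT fun α hα β hβ hβT hmem => hcl α hα β hβ hβT ?_
    exact mem_biUnion.mpr ⟨F, mem_univ _, hmem⟩
  -- the data
  let I := Σ F : Φ, ((G F).support × (G F).support)
  let t0 : (J → ℂ) → I → ↥(insert 0 R : Finset ℂ) := fun z i =>
    if h : mon z (i.2.1 : J →₀ ℕ) / mon z (i.2.2 : J →₀ ℕ) ∈ R then
      ⟨mon z (i.2.1 : J →₀ ℕ) / mon z (i.2.2 : J →₀ ℕ), mem_insert_of_mem h⟩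
    else ⟨0, mem_insert_self _ _⟩
  have ht0 : ∀ z i, mon z (i.2.1 : J →₀ ℕ) / mon z (i.2.2 : J →₀ ℕ) ∈ R →
      ((t0 z i : ↥(insert 0 R : Finset ℂ)) : ℂ) =
        mon z (i.2.1 : J →₀ ℕ) / mon z (i.2.2 : J →₀ ℕ) := by
    intro z i h
    simp only [t0, dif_pos h]
  have ht0' : ∀ z i, ((t0 z i : ↥(insert 0 R : Finset ℂ)) : ℂ) ≠ 0 →
      ((t0 z i : ↥(insert 0 R : Finset ℂ)) : ℂ) =
        mon z (i.2.1 : J →₀ ℕ) / mon z (i.2.2 : J →₀ ℕ) := by
    intro z i h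
    by_cases h1 : mon z (i.2.1 : J →₀ ℕ) / mon z (i.2.2 : J →₀ ℕ) ∈ R
    · exact ht0 z i h1
    · exfalso
      apply h
      simp only [t0, dif_neg h1]
  have hts := fun τ : I → ↥(insert 0 R : Finset ℂ) =>
    torus_split (I := {i : I // ((τ i : ↥(insert 0 R : Finset ℂ)) : ℂ) ≠ 0}) (J := J)
      (fun i j => (((i : I).2.1 : J →₀ ℕ) j : ℤ) - (((i : I).2.2 : J →₀ ℕ) j : ℤ))
  choose D n hD hn hw using hts
  let Good : (J → ℂ) → Prop := fun z => IsSol z ∧ ∀ F, eval z (G F) = 0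
  let z0 : (I → ↥(insert 0 R : Finset ℂ)) → J → ℂ := fun τ =>
    if h : ∃ z, Good z ∧ t0 z = τ then h.choose else 1
  have hz0 : ∀ τ, (∃ z, Good z ∧ t0 z = τ) → Good (z0 τ) ∧ t0 (z0 τ) = τ := by
    intro τ h
    simp only [z0, dif_pos h]
    exact h.choose_spec
  let f : (Σ τ : I → ↥(insert 0 R : Finset ℂ), J → Fin (D τ)) → ((J → ℂ) × (J → J → ℤ)) :=
    fun p => (fun j => z0 p.1 j * Complex.exp (2 * Real.pi * Complex.I * ((p.2 j : ℕ) : ℂ) / D p.1),
      n p.1)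
  refine ⟨{c | ∃ p, c = f p ∧ ∃ z, Good z ∧ t0 z = p.1 ∧
    ∃ σ : J → ℂ, (∀ a, σ a ≠ 0) ∧ ∀ j, z j = c.1 j * ∏ a, σ a ^ c.2 a j}, ?_, ?_, ?_⟩
  · refine (Set.finite_range f).subset ?_
    rintro c ⟨p, rfl, _⟩
    exact ⟨p, rfl⟩
  · rintro c ⟨p, hc, z, hz, hzt, σ0, hσ0, hzc⟩
    constructor
    · intro j h0
      have := hzc j
      rw [h0, zero_mul] at this
      exact hz.1.ne_zero j this
    · intro σ hσ F
      have hc2 : c.2 = n p.1 := by rw [hc]
      have h1 : (fun j => c.1 j * ∏ a, σ a ^ c.2 a j) =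
          fun j => z j * ∏ a, (σ a / σ0 a) ^ c.2 a j := by
        funext j
        rw [hzc]
        have h2 : ∏ a, (σ a / σ0 a) ^ c.2 a j = (∏ a, σ a ^ c.2 a j) / ∏ a, σ0 a ^ c.2 a j := by
          rw [← prod_div_distrib]
          exact prod_congr rfl fun a _ => div_zpow _ _ _
        rw [h2]
        have h3 : ∏ a, σ0 a ^ c.2 a j ≠ 0 :=
          prod_ne_zero_iff.mpr fun a _ => zpow_ne_zero _ (hσ0 a)
        field_simp
      rw [h1, hc2]
      refine path_zero (G F) R z (fun T hT hcl => hR F z hz.1 (hz.2 F) T hT hcl) (n p.1) ?_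
        (fun a => σ a / σ0 a) (fun a => div_ne_zero (hσ a) (hσ0 a))
      intro α hα β hβ hmem a
      have hi : ((p.1 ⟨F, ⟨α, hα⟩, ⟨β, hβ⟩⟩ : ↥(insert 0 R : Finset ℂ)) : ℂ) ≠ 0 := by
        rw [← hzt, ht0 z ⟨F, ⟨α, hα⟩, ⟨β, hβ⟩⟩ hmem]
        exact div_ne_zero (mon_ne_zero z hz.1.ne_zero _) (mon_ne_zero z hz.1.ne_zero _)
      exact hn p.1 ⟨⟨F, ⟨α, hα⟩, ⟨β, hβ⟩⟩, hi⟩ a
  · intro z hz hzG
    set τ := t0 z with hτ
    obtain ⟨hg0, ht00⟩ := hz0 τ ⟨z, ⟨hz, hzG⟩, rfl⟩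
    have hne0 := hg0.1.ne_zero
    have hne := hz.ne_zero
    have hpi : (2 * Real.pi * Complex.I : ℂ) ≠ 0 := Complex.two_pi_I_ne_zero
    -- logarithms
    set w : J → ℂ := fun j => Complex.log (z j / z0 τ j) / (2 * Real.pi * Complex.I) with hwdef
    have hexp : ∀ j, Complex.exp (2 * Real.pi * Complex.I * w j) = z j / z0 τ j := by
      intro j
      rw [hwdef]
      simp only
      rw [mul_div_cancel₀ _ hpi, Complex.exp_log (div_ne_zero (hne j) (hne0 j))]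
    have hexpα : ∀ α : J →₀ ℕ, Complex.exp (2 * Real.pi * Complex.I * ∑ j, (α j : ℂ) * w j) =
        mon z α / mon (z0 τ) α := by
      intro α
      rw [mul_sum, Complex.exp_sum, mon, mon, ← prod_div_distrib]
      refine prod_congr rfl fun j _ => ?_
      rw [← div_pow, ← hexp, ← Complex.exp_nat_mul]
      congr 1
      ring
    obtain ⟨x, s, hxs⟩ := hw τ w (by
      rintro ⟨⟨F, α, β⟩, hi⟩
      have h1 : ((τ ⟨F, α, β⟩ : ↥(insert 0 R : Finset ℂ)) : ℂ) = mon z α / mon z β :=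
        ht0' z ⟨F, α, β⟩ hi
      have h2 : ((t0 (z0 τ) ⟨F, α, β⟩ : ↥(insert 0 R : Finset ℂ)) : ℂ) =
          mon (z0 τ) α / mon (z0 τ) β := ht0' (z0 τ) ⟨F, α, β⟩ (by rw [ht00]; exact hi)
      rw [ht00, h1] at h2
      have hzα := mon_ne_zero z hne α
      have hzβ := mon_ne_zero z hne β
      have hz0α := mon_ne_zero _ hne0 α
      have hz0β := mon_ne_zero _ hne0 β
      have h3 : mon z α / mon (z0 τ) α = mon z β / mon (z0 τ) β := by
        field_simp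
        field_simp at h2
        linear_combination h2
      rw [← hexpα, ← hexpα, Complex.exp_eq_exp_iff_exists_int] at h3
      obtain ⟨k, hk⟩ := h3
      refine ⟨k, ?_⟩
      apply mul_left_cancel₀ hpi
      push_cast
      have h4 : ∑ j, (((α : J →₀ ℕ) j : ℂ) - ((β : J →₀ ℕ) j : ℂ)) * w j =
          ∑ j, ((α : J →₀ ℕ) j : ℂ) * w j - ∑ j, ((β : J →₀ ℕ) j : ℂ) * w j := by
        rw [← sum_sub_distrib]
        exact sum_congr rfl fun j _ => by ring
      rw [h4, mul_sub, hk]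
      ring)
    have hDpos : (0 : ℤ) < D τ := by exact_mod_cast hD τ
    have hDC : (D τ : ℂ) ≠ 0 := by exact_mod_cast (hD τ).ne'
    -- the residue
    have hres : ∀ j, ∃ r : Fin (D τ), Complex.exp (2 * Real.pi * Complex.I * ((x j : ℤ) : ℂ) / D τ) =
        Complex.exp (2 * Real.pi * Complex.I * ((r : ℕ) : ℂ) / D τ) := by
      intro j
      have h1 := Int.emod_nonneg (x j) hDpos.ne'
      have h2 := Int.emod_lt_of_pos (x j) hDpos
      refine ⟨⟨(x j % D τ).toNat, by omega⟩, ?_⟩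
      rw [Complex.exp_eq_exp_iff_exists_int]
      refine ⟨x j / D τ, ?_⟩
      simp only
      have h3 : (((x j % D τ).toNat : ℕ) : ℂ) = ((x j % D τ : ℤ) : ℂ) := by
        have : (((x j % D τ).toNat : ℕ) : ℤ) = x j % D τ := Int.toNat_of_nonneg h1
        exact_mod_cast congrArg (Int.cast : ℤ → ℂ) this
      rw [h3]
      have h4 : ((x j : ℤ) : ℂ) = ((x j % D τ : ℤ) : ℂ) + (D τ : ℂ) * ((x j / D τ : ℤ) : ℂ) := by
        have : x j = x j % D τ + D τ * (x j / D τ) := (Int.emod_add_mul_ediv _ _).symm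
        exact_mod_cast congrArg (Int.cast : ℤ → ℂ) this
      rw [h4]
      field_simp
    choose r hr using hres
    have hfinal : ∀ j, z j = (f ⟨τ, r⟩).1 j *
        ∏ a, (Complex.exp (2 * Real.pi * Complex.I * s a)) ^ (f ⟨τ, r⟩).2 a j := by
      intro j
      show z j = z0 τ j * Complex.exp (2 * Real.pi * Complex.I * ((r j : ℕ) : ℂ) / D τ) *
        ∏ a, (Complex.exp (2 * Real.pi * Complex.I * s a)) ^ n τ a j
      have h1 : z j = z0 τ j * Complex.exp (2 * Real.pi * Complex.I * w j) := by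
        rw [hexp]
        have := hne0 j
        field_simp
      have h5 : Complex.exp (2 * Real.pi * Complex.I * ∑ a, s a * (n τ a j : ℂ)) =
          ∏ a, (Complex.exp (2 * Real.pi * Complex.I * s a)) ^ n τ a j := by
        rw [mul_sum, Complex.exp_sum]
        refine prod_congr rfl fun a _ => ?_
        rw [← Complex.exp_int_mul]
        congr 1
        ring
      rw [h1, ← hr, hxs j, mul_add, Complex.exp_add, h5, mul_div_assoc]
      ring
    exact ⟨f ⟨τ, r⟩, ⟨⟨τ, r⟩, rfl, z, ⟨hz, hzG⟩, rfl, _, fun a => Complex.exp_ne_zero _, hfinal⟩,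
      _, fun a => Complex.exp_ne_zero _, hfinal⟩

end Pool.Agent.N695.CY
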