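import Mathlib
import Pool.Agent.N695.CY.Struct
import Pool.Agent.H458.Sp.Brody

set_option autoImplicit false

/-!
# Cosets of subtori mapped into hyperbolic varieties
-/

namespace Pool.Agent.N695.CY

open Finset MvPolynomial Pool.Agent.H458.Sp

/-- the point `∑ z_j w_j` -/
def pt {J : Type} [Fintype J] {n : ℕ} (w : J → Fin n → ℂ) (z : J → ℂ) : Fin n → ℂ :=
  fun i => ∑ j, z j * w j i

/-- the polynomial `F (∑ z_j w_j)` in the variables `z_j` -/
noncomputable def subst {J : Type} [Fintype J] {n : ℕ} (w : J → Fin n → ℂ)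
    (F : MvPolynomial (Fin n) ℂ) : MvPolynomial J ℂ :=
  aeval (fun i => ∑ j, X j * C (w j i)) F

theorem eval_subst {J : Type} [Fintype J] {n : ℕ} (w : J → Fin n → ℂ)
    (F : MvPolynomial (Fin n) ℂ) (z : J → ℂ) : eval z (subst w F) = eval (pt w z) F := by
  rw [subst, aeval_def, eval₂_eq', map_sum, eval_eq']
  refine sum_congr rfl fun α _ => ?_
  rw [map_mul, map_prod]
  congr 1
  · show eval z (C _) = _
    rw [eval_C]
  · refine prod_congr rfl fun i _ => ?_
    rw [map_pow, map_sum]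
    simp [pt]

/-- finitely many of the equations suffice -/
theorem exists_finite_eqs {n : ℕ} (FF : Set (MvPolynomial (Fin n) ℂ)) :
    ∃ F0 : Finset (MvPolynomial (Fin n) ℂ), (F0 : Set _) ⊆ FF ∧
      ∀ x : Fin n → ℂ, (∀ F ∈ F0, eval x F = 0) → ∀ F ∈ FF, eval x F = 0 := by
  classical
  have hfg : (Ideal.span FF).FG := IsNoetherian.noetherian _
  obtain ⟨F0, hF0, hspan⟩ := (Submodule.fg_span_iff_fg_span_finset_subset FF).mp hfg
  refine ⟨F0, hF0, fun x hx F hF => ?_⟩
  have h1 : F ∈ Ideal.span (F0 : Set (MvPolynomial (Fin n) ℂ)) := by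
    have : F ∈ Submodule.span (MvPolynomial (Fin n) ℂ) FF := Submodule.subset_span hF
    rw [hspan] at this
    exact this
  have h2 : Ideal.span (F0 : Set (MvPolynomial (Fin n) ℂ)) ≤ RingHom.ker (eval x) := by
    rw [Ideal.span_le]
    intro G hG
    exact hx G hG
  exact h2 h1

/-- polynomial curves on hyperbolic varieties are constant -/
theorem brody_curve {n : ℕ} (FF : Set (MvPolynomial (Fin (n + 1)) ℂ))
    (hom : ∀ F ∈ FF, ∃ e, F.IsHomogeneous e) (hyp : BrodyHyperbolic FF)
    (P : Fin (n + 1) → Polynomial ℂ) (hP : ∀ F ∈ FF, aeval P F = 0) (i j : Fin (n + 1))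
    (z w : ℂ) : (P i).eval z * (P j).eval w = (P j).eval z * (P i).eval w := by
  classical
  by_cases hP0 : ∀ i, P i = 0
  · rw [hP0 i, hP0 j]
  push Not at hP0
  obtain ⟨i0, hPi0⟩ := hP0
  obtain ⟨g, hg⟩ := (IsPrincipalIdealRing.principal (Ideal.span (Set.range P))).principal
  have hg' : Ideal.span (Set.range P) = Ideal.span {g} := hg
  have hdvd : ∀ i, ∃ q, P i = g * q := by
    intro i
    have : P i ∈ Ideal.span (Set.range P) := Ideal.subset_span ⟨i, rfl⟩
    rw [hg', Ideal.mem_span_singleton] at this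
    exact this
  choose q hq using hdvd
  have hg0 : g ≠ 0 := by
    intro h
    apply hPi0
    rw [hq i0, h, zero_mul]
  obtain ⟨a, ha⟩ : ∃ a : Fin (n + 1) → Polynomial ℂ, ∑ i, a i * P i = g := by
    rw [← Ideal.mem_span_range_iff_exists_fun, hg']
    exact Ideal.mem_span_singleton_self g
  have hbez : ∑ i, a i * q i = 1 := by
    apply mul_left_cancel₀ hg0
    rw [Finset.mul_sum, mul_one]
    calc ∑ i, g * (a i * q i) = ∑ i, a i * P i := by
          refine Finset.sum_congr rfl fun i _ => ?_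
          rw [hq i]; ring
      _ = g := ha
  have key : ∀ G ∈ FF, ∀ z : ℂ, MvPolynomial.eval (fun i => (q i).eval z) G = 0 := by
    intro F hFF z
    obtain ⟨e, he⟩ := hom F hFF
    have h1 := hP F hFF
    have h3 : aeval q F = 0 := by
      have h4 : P = fun i => g * q i := funext hq
      rw [h4, aeval_smul_homog _ he g q] at h1
      rcases mul_eq_zero.1 h1 with h5 | h5
      · exact absurd h5 (pow_ne_zero e hg0)
      · exact h5
    have h6 := congrArg (Polynomial.evalRingHom z) h3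
    rw [map_zero, aeval_def, MvPolynomial.hom_eval₂] at h6
    rw [← h6]
    unfold MvPolynomial.eval
    show MvPolynomial.eval₂ _ _ _ = _
    congr 1
    ext a
    simp
  have hno : ∀ z : ℂ, ∃ i, (q i).eval z ≠ 0 := by
    intro z
    by_contra h
    push Not at h
    have h1 := congrArg (Polynomial.eval z) hbez
    rw [Polynomial.eval_finsetSum, Polynomial.eval_one] at h1
    simp [h] at h1
  have hcon := hyp (fun i z => (q i).eval z) (fun i => (q i).differentiable) hno key z w i j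
  rw [hq i, hq j]
  simp only [Polynomial.eval_mul]
  linear_combination (g.eval z * g.eval w) * hcon

/-- scaling -/
theorem eval_smul_homog {n e : ℕ} (F : MvPolynomial (Fin n) ℂ) (hF : F.IsHomogeneous e) (t : ℂ)
    (y : Fin n → ℂ) : eval (fun i => t * y i) F = t ^ e * eval y F := by
  rw [eval_eq', eval_eq', Finset.mul_sum]
  refine Finset.sum_congr rfl fun α hα => ?_
  have h1 := hF (mem_support_iff.1 hα)
  rw [Finsupp.weight_apply, Finsupp.sum_fintype _ _ (by simp)] at h1
  have h2 : ∑ i, α i = e := by simpa using h1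
  simp_rw [mul_pow]
  rw [Finset.prod_mul_distrib, Finset.prod_pow_eq_pow_sum, h2]
  ring

/-- the image of a coset of a subtorus in a hyperbolic variety is a point -/
theorem coset_const {J : Type} [Fintype J] [DecidableEq J] {n : ℕ}
    (FF : Set (MvPolynomial (Fin (n + 1)) ℂ)) (hom : ∀ F ∈ FF, ∃ e, F.IsHomogeneous e)
    (hyp : BrodyHyperbolic FF) (w : J → Fin (n + 1) → ℂ) (c : J → ℂ) (nn : J → J → ℤ)
    (hvan : ∀ σ : J → ℂ, (∀ a, σ a ≠ 0) → ∀ F ∈ FF,
      eval (pt w fun j => c j * ∏ a, σ a ^ nn a j) F = 0)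
    (σ σ' : J → ℂ) (hσ : ∀ a, σ a ≠ 0) (hσ' : ∀ a, σ' a ≠ 0) (i i' : Fin (n + 1)) :
    pt w (fun j => c j * ∏ a, σ a ^ nn a j) i * pt w (fun j => c j * ∏ a, σ' a ^ nn a j) i' =
      pt w (fun j => c j * ∏ a, σ a ^ nn a j) i' * pt w (fun j => c j * ∏ a, σ' a ^ nn a j) i := by
  classical
  -- a bound for the exponents
  obtain ⟨K, hK⟩ : ∃ K : ℕ, ∀ a j, 0 ≤ nn a j + K := by
    refine ⟨∑ a, ∑ j, (nn a j).natAbs, fun a j => ?_⟩
    have h1 : (nn a j).natAbs ≤ ∑ j, (nn a j).natAbs :=
      single_le_sum (f := fun j => (nn a j).natAbs) (fun _ _ => Nat.zero_le _) (mem_univ j)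
    have h2 : ∑ j, (nn a j).natAbs ≤ ∑ a, ∑ j, (nn a j).natAbs :=
      single_le_sum (f := fun a => ∑ j, (nn a j).natAbs) (fun _ _ => Nat.zero_le _) (mem_univ a)
    have h3 := h1.trans h2
    omega
  -- the linear factors
  set ℓ : J → Polynomial ℂ := fun a =>
    Polynomial.C (σ a) + Polynomial.C (σ' a - σ a) * Polynomial.X with hℓ
  have hℓeval : ∀ a t, (ℓ a).eval t = σ a + (σ' a - σ a) * t := by
    intro a t
    simp [hℓ]
  set Z : J → Polynomial ℂ := fun j =>
    Polynomial.C (c j) * ∏ a, ℓ a ^ (nn a j + K).toNat with hZ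
  set P : Fin (n + 1) → Polynomial ℂ := fun i => ∑ j, Z j * Polynomial.C (w j i) with hPdef
  have hZeval : ∀ j t, (∀ a, (ℓ a).eval t ≠ 0) → (Z j).eval t =
      (∏ a, (ℓ a).eval t) ^ K * (c j * ∏ a, (ℓ a).eval t ^ nn a j) := by
    intro j t ht
    rw [hZ]
    simp only [Polynomial.eval_mul, Polynomial.eval_C, Polynomial.eval_prod, Polynomial.eval_pow]
    have h1 : ∀ a, (ℓ a).eval t ^ (nn a j + K).toNat =
        (ℓ a).eval t ^ K * (ℓ a).eval t ^ nn a j := by
      intro a
      rw [← zpow_natCast, Int.toNat_of_nonneg (hK a j), zpow_add₀ (ht a), zpow_natCast]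
      ring
    simp only [h1]
    rw [prod_mul_distrib, prod_pow]
    ring
  have hPeval : ∀ i t, (∀ a, (ℓ a).eval t ≠ 0) → (P i).eval t =
      (∏ a, (ℓ a).eval t) ^ K * pt w (fun j => c j * ∏ a, (ℓ a).eval t ^ nn a j) i := by
    intro i t ht
    rw [hPdef]
    simp only [Polynomial.eval_finsetSum, Polynomial.eval_mul, Polynomial.eval_C]
    rw [pt, mul_sum]
    refine sum_congr rfl fun j _ => ?_
    rw [hZeval j t ht]
    ring
  have hP0 : ∀ F ∈ FF, aeval P F = 0 := by
    intro F hF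
    obtain ⟨e, he⟩ := hom F hF
    have hprod : (∏ a, ℓ a) ≠ 0 := by
      intro h0
      have := congrArg (Polynomial.eval 0) h0
      rw [Polynomial.eval_prod, Polynomial.eval_zero] at this
      refine prod_ne_zero_iff.mpr (fun a _ => ?_) this
      rw [hℓeval, mul_zero, add_zero]
      exact hσ a
    have h1 : (∏ a, ℓ a) * aeval P F = 0 := by
      apply Polynomial.funext
      intro t
      rw [Polynomial.eval_mul, Polynomial.eval_zero]
      by_cases ht : ∀ a, (ℓ a).eval t ≠ 0
      · have h2 : Polynomial.eval t (aeval P F) = eval (fun i => (P i).eval t) F := by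
          rw [aeval_def, eval₂_eq', eval_eq', Polynomial.eval_finsetSum]
          refine sum_congr rfl fun α _ => ?_
          rw [Polynomial.eval_mul, Polynomial.eval_prod]
          simp only [Polynomial.eval_pow]
          congr 1
          show Polynomial.eval t (Polynomial.C _) = _
          rw [Polynomial.eval_C]
        rw [h2]
        have h3 : (fun i => (P i).eval t) = fun i => (∏ a, (ℓ a).eval t) ^ K *
            pt w (fun j => c j * ∏ a, (ℓ a).eval t ^ nn a j) i := funext fun i => hPeval i t ht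
        rw [h3, eval_smul_homog F he, hvan _ ht F hF, mul_zero, mul_zero]
      · push Not at ht
        obtain ⟨a, ha⟩ := ht
        rw [Polynomial.eval_prod, prod_eq_zero (mem_univ a) ha, zero_mul]
    exact (mul_eq_zero.mp h1).resolve_left hprod
  have hcon := brody_curve FF hom hyp P hP0 i i' 0 1
  have h0 : ∀ a, (ℓ a).eval 0 = σ a := fun a => by rw [hℓeval]; ring
  have h1 : ∀ a, (ℓ a).eval 1 = σ' a := fun a => by rw [hℓeval]; ring
  rw [hPeval i 0 (fun a => by rw [h0]; exact hσ a), hPeval i' 0 (fun a => by rw [h0]; exact hσ a),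
    hPeval i 1 (fun a => by rw [h1]; exact hσ' a), hPeval i' 1 (fun a => by rw [h1]; exact hσ' a)]
    at hcon
  simp only [h0, h1] at hcon
  have h2 : (∏ a, σ a) ^ K ≠ 0 := pow_ne_zero _ (prod_ne_zero_iff.mpr fun a _ => hσ a)
  have h3 : (∏ a, σ' a) ^ K ≠ 0 := pow_ne_zero _ (prod_ne_zero_iff.mpr fun a _ => hσ' a)
  apply mul_left_cancel₀ (mul_ne_zero h2 h3)
  linear_combination hcon

/-- The points of a hyperbolic variety which are combinations of given vectors with coefficients
powers of a rational number times roots of unity. -/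
theorem finite_points {J : Type} [Fintype J] [DecidableEq J] {n : ℕ}
    (FF : Set (MvPolynomial (Fin (n + 1)) ℂ)) (hom : ∀ F ∈ FF, ∃ e, F.IsHomogeneous e)
    (hyp : BrodyHyperbolic FF) (w : J → Fin (n + 1) → ℂ) :
    {P : Projectivization ℂ (Fin (n + 1) → ℂ) | ∃ (z : J → ℂ) (hv : pt w z ≠ 0), IsSol z ∧
      (∀ F ∈ FF, eval (pt w z) F = 0) ∧ P = Projectivization.mk ℂ (pt w z) hv}.Finite := by
  classical
  obtain ⟨F0, hF0, hzero⟩ := exists_finite_eqs FF
  obtain ⟨C, hC, hvan, hcov⟩ := structure_thm (fun F : F0 => subst w (F : MvPolynomial _ ℂ))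
  refine (hC.biUnion (t := fun c => {P : Projectivization ℂ (Fin (n + 1) → ℂ) | ∃ (σ : J → ℂ)
    (hv : pt w (fun j => c.1 j * ∏ a, σ a ^ c.2 a j) ≠ 0), (∀ a, σ a ≠ 0) ∧
      P = Projectivization.mk ℂ _ hv}) ?_).subset ?_
  · intro c hc
    apply Set.Subsingleton.finite
    rintro P ⟨σ, hv, hσ, rfl⟩ Q ⟨σ', hv', hσ', rfl⟩
    have hcc := coset_const FF hom hyp w c.1 c.2 (by
      intro σ hσ F hF
      refine hzero _ (fun F' hF' => ?_) F hF
      have := (hvan c hc).2 σ hσ ⟨F', hF'⟩
      rwa [eval_subst] at this) σ σ' hσ hσ'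
    rw [Projectivization.mk_eq_mk_iff']
    obtain ⟨i0, hi0⟩ : ∃ i, pt w (fun j => c.1 j * ∏ a, σ' a ^ c.2 a j) i ≠ 0 := by
      by_contra h
      push Not at h
      exact hv' (funext h)
    refine ⟨pt w (fun j => c.1 j * ∏ a, σ a ^ c.2 a j) i0 /
      pt w (fun j => c.1 j * ∏ a, σ' a ^ c.2 a j) i0, ?_⟩
    funext i
    rw [Pi.smul_apply, smul_eq_mul, div_mul_eq_mul_div, div_eq_iff hi0]
    exact hcc i0 i
  · rintro P ⟨z, hv, hz, hF, rfl⟩
    obtain ⟨c, hc, σ, hσ, hzc⟩ := hcov z hz (by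
      rintro ⟨F, hFm⟩
      rw [eval_subst]
      exact hF F (hF0 hFm))
    have hzeq : z = fun j => c.1 j * ∏ a, σ a ^ c.2 a j := funext hzc
    simp only [Set.mem_iUnion]
    refine ⟨c, hc, σ, ?_, hσ, ?_⟩
    · rw [← hzeq]; exact hv
    · simp only [hzeq]

end Pool.Agent.N695.CY
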