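import Mathlib
import Pool.Agent.N695.CY.Curve
import Pool.Agent.Helper781.CycHouse.Loxton

set_option autoImplicit false

/-!
# Numbers which are sparse in a rational base, with cyclotomic integers as digits
-/

namespace Pool.Agent.N695.CY

open Finset

/-- `x` is a cyclotomic integer, of any conductor, and the mean of the squares of the absolute
values of its conjugates is at most `B`. -/
def CycInt (B : ℝ) (x : ℂ) : Prop :=
  ∃ (N : ℕ) (f : Polynomial ℤ) (z : ℂ), 0 < N ∧ IsPrimitiveRoot z N ∧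
    Pool.Agent.Helper781.CycHouse.mean N f ≤ B ∧ x = Polynomial.aeval z f

/-- `a` is a sum of `r` terms `b ^ m * x`, with `m` an integer and `x` a cyclotomic integer for
which the mean of the squares of the absolute values of the conjugates is at most `B`. -/
def SparseCyc (b : ℚ) (r : ℕ) (B : ℝ) (a : ℂ) : Prop :=
  ∃ (m : Fin r → ℤ) (x : Fin r → ℂ), (∀ j, CycInt B (x j)) ∧ a = ∑ j, (b : ℂ) ^ m j * x j

theorem len_fin (L : ℕ) (s : Multiset ℂ) : s.card ≤ L → (∀ z ∈ s, ∃ m : ℕ, 0 < m ∧ z ^ m = 1) →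
    ∃ (A : Finset (Fin L)) (ζ : Fin L → ℂ), A.card = s.card ∧
      (∀ l, ∃ m : ℕ, 0 < m ∧ ζ l ^ m = 1) ∧ ∑ l ∈ A, ζ l = s.sum := by
  classical
  induction s using Multiset.induction_on with
  | empty =>
    intro _ _
    exact ⟨∅, fun _ => 1, by simp, fun _ => ⟨1, one_pos, one_pow _⟩, by simp⟩
  | cons a s ih =>
    intro hcard hmem
    rw [Multiset.card_cons] at hcard
    obtain ⟨A, ζ, hA, hζ, hsum⟩ := ih (by omega) fun z hz => hmem z (Multiset.mem_cons_of_mem hz)
    obtain ⟨l0, hl0⟩ : ∃ l, l ∉ A := by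
      by_contra h
      push Not at h
      have : A = univ := eq_univ_iff_forall.mpr h
      rw [this, card_univ, Fintype.card_fin] at hA
      omega
    refine ⟨insert l0 A, Function.update ζ l0 a, ?_, ?_, ?_⟩
    · rw [card_insert_of_notMem hl0, hA, Multiset.card_cons]
    · intro l
      by_cases hl : l = l0
      · rw [hl, Function.update_self]
        exact hmem a (Multiset.mem_cons_self _ _)
      · rw [Function.update_of_ne hl]
        exact hζ l
    · rw [sum_insert hl0, Function.update_self, Multiset.sum_cons, ← hsum]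
      congr 1
      refine sum_congr rfl fun l hl => ?_
      rw [Function.update_of_ne]
      rintro rfl
      exact hl0 hl

/-- The combinations of given vectors with sparse coefficients are covered by finitely many
families. -/
theorem decomp {n : ℕ} (p : ℕ) (u : Fin p → Fin n → ℂ) (r : ℕ) (B : ℝ) :
    ∃ L : ℕ, ∀ (b : ℚ) (a : Fin p → ℂ), b ≠ 0 → |b| ≠ 1 → (∀ i, SparseCyc b r B (a i)) →
      ∃ (J : Finset (Fin p × Fin r × Fin L)) (z : J → ℂ), IsSol z ∧
        (∑ i, a i • u i) = pt (fun k : J => u (k : Fin p × Fin r × Fin L).1) z := by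
  classical
  obtain ⟨k, hk⟩ := exists_nat_ge (2 * B)
  obtain ⟨L, hL⟩ := Pool.Agent.Helper781.CycHouse.loxton k
  refine ⟨L, ?_⟩
  intro b a hb0 hb1 ha
  choose m x hx hax using ha
  have hlen : ∀ i j, ∃ (A : Finset (Fin L)) (ζ : Fin L → ℂ),
      (∀ l, ∃ m : ℕ, 0 < m ∧ ζ l ^ m = 1) ∧ ∑ l ∈ A, ζ l = x i j := by
    intro i j
    obtain ⟨N, f, z, hN, hz, hmean, hxf⟩ := hx i j
    obtain ⟨s, hs1, hs2, hs3⟩ := hL N hN f (by linarith) z hz
    obtain ⟨A, ζ, _, h2, h3⟩ := len_fin L s hs1 hs2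
    exact ⟨A, ζ, h2, by rw [h3, hs3, hxf]⟩
  choose A ζ hζ hA using hlen
  choose o ho0 ho1 using hζ
  set J : Finset (Fin p × Fin r × Fin L) := univ.filter fun k => k.2.2 ∈ A k.1 k.2.1 with hJ
  refine ⟨J, fun k => (b : ℂ) ^ m (k : Fin p × Fin r × Fin L).1 (k : Fin p × Fin r × Fin L).2.1 *
    ζ (k : Fin p × Fin r × Fin L).1 (k : Fin p × Fin r × Fin L).2.1
      (k : Fin p × Fin r × Fin L).2.2, ?_, ?_⟩
  · refine ⟨b, _, _, ∏ i, ∏ j, ∏ l, o i j l, hb0, hb1,
      prod_pos fun i _ => prod_pos fun j _ => prod_pos fun l _ => ho0 i j l, ?_, fun _ => rfl⟩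
    rintro ⟨⟨i, j, l⟩, hk⟩
    have h1 : o i j l ∣ ∏ i, ∏ j, ∏ l, o i j l :=
      ((dvd_prod_of_mem (fun l => o i j l) (mem_univ l)).trans
        (dvd_prod_of_mem (fun j => ∏ l, o i j l) (mem_univ j))).trans
        (dvd_prod_of_mem (fun i => ∏ j, ∏ l, o i j l) (mem_univ i))
    obtain ⟨q, hq⟩ := h1
    simp only
    rw [hq, pow_mul, ho1, one_pow]
  · funext i'
    rw [pt, Finset.sum_apply]
    rw [sum_coe_sort J (fun k : Fin p × Fin r × Fin L =>
      (b : ℂ) ^ m k.1 k.2.1 * ζ k.1 k.2.1 k.2.2 * u k.1 i')]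
    rw [hJ, sum_filter, Fintype.sum_prod_type]
    refine sum_congr rfl fun i _ => ?_
    rw [Pi.smul_apply, smul_eq_mul, hax, sum_mul, Fintype.sum_prod_type]
    refine sum_congr rfl fun j _ => ?_
    simp only
    rw [← sum_filter, ← hA i j, mul_sum, sum_mul]
    refine sum_congr ?_ fun _ _ => rfl
    ext l
    simp

end Pool.Agent.N695.CY
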